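import Pool.Agent.DTR.Stmts2

/-!
# MP_25e1c1_co, part 2, module ARG: vertex worlds of arboreal decompositions, arbitrary guards
-/

set_option autoImplicit false

namespace Pool.Agent.DTR

open Finset

namespace ARGX

variable {V T : Type} {D : V → V → Prop} (A : Arb D T)

theorem iter_root (i : ℕ) : A.par^[i] A.root = A.root := by
  induction i with
  | zero => rfl
  | succ n ih => rw [Function.iterate_succ_apply, A.proot, ih]

theorem iter_mul {s : T} {p : ℕ} (h : A.par^[p] s = s) (n : ℕ) : A.par^[n * p] s = s := by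
  induction n with
  | zero => rw [Nat.zero_mul]; rfl
  | succ n ih => rw [Nat.succ_mul, Function.iterate_add_apply, h, ih]

theorem eq_root {s : T} {p : ℕ} (hp : 0 < p) (h : A.par^[p] s = s) : s = A.root := by
  obtain ⟨r, hr⟩ := A.reach s
  have h1 := iter_mul A h r
  have h2 : r * p = (r * p - r) + r := by
    have : r ≤ r * p := Nat.le_mul_of_pos_right r hp
    omega
  rw [h2, Function.iterate_add_apply, hr, iter_root] at h1
  exact h1.symm

theorem antisymm {s s' : T} {i j : ℕ} (h : A.par^[i] s = s') (h' : A.par^[j] s' = s) : s = s' := by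
  have h1 : A.par^[j + i] s = s := by rw [Function.iterate_add_apply, h, h']
  rcases Nat.eq_zero_or_pos (j + i) with h0 | h0
  · have hi : i = 0 := by omega
    rw [hi] at h
    exact h
  · have h2 := eq_root A h0 h1
    rw [h2, iter_root] at h
    rw [h2, h]

theorem anc_trans {a b c : T} (h1 : A.Anc a b) (h2 : A.Anc b c) : A.Anc a c := by
  obtain ⟨n1, i, hi⟩ := h1
  obtain ⟨n2, j, hj⟩ := h2
  refine ⟨?_, i + j, ?_⟩
  · rintro rfl
    exact n1 (antisymm A hj hi)
  · rw [Function.iterate_add_apply, hj, hi]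

theorem cmp {s s' t : T} {i j : ℕ} (h : A.par^[i] t = s) (h' : A.par^[j] t = s') (hij : i ≤ j) :
    A.par^[j - i] s = s' := by
  rw [← h, ← Function.iterate_add_apply, Nat.sub_add_cancel hij, h']

/-- the ancestor relation on the vertices -/
def an (o : V → ℕ) (u v : V) : Prop := A.Anc (A.h u) (A.h v) ∨ (A.h u = A.h v ∧ o u < o v)

theorem an_path {o : V → ℕ} {u v : V} (h : an A o u v) : ∃ i, A.par^[i] (A.h v) = A.h u := by
  rcases h with h | h
  · exact h.2
  · exact ⟨0, h.1.symm⟩

theorem an_trans {o : V → ℕ} {a b c : V} (h1 : an A o a b) (h2 : an A o b c) : an A o a c := by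
  rcases h1 with h1 | h1 <;> rcases h2 with h2 | h2
  · exact Or.inl (anc_trans A h1 h2)
  · left
    rw [← h2.1]
    exact h1
  · left
    rw [h1.1]
    exact h2
  · exact Or.inr ⟨h1.1.trans h2.1, h1.2.trans h2.2⟩

theorem an_irrefl {o : V → ℕ} (a : V) : ¬ an A o a a := by
  rintro (h | h)
  · exact h.1 rfl
  · exact absurd h.2 (lt_irrefl _)

theorem an_cmp {o : V → ℕ} (ho : Function.Injective o) {a b : V} {k : ℕ}
    (h : A.par^[k] (A.h a) = A.h b) : a = b ∨ an A o a b ∨ an A o b a := by
  by_cases hab : A.h a = A.h b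
  · rcases lt_trichotomy (o a) (o b) with h1 | h1 | h1
    · exact Or.inr (Or.inl (Or.inr ⟨hab, h1⟩))
    · exact Or.inl (ho h1)
    · exact Or.inr (Or.inr (Or.inr ⟨hab.symm, h1⟩))
  · exact Or.inr (Or.inr (Or.inl ⟨fun e => hab e.symm, k, h⟩))

theorem an_chain {o : V → ℕ} (ho : Function.Injective o) {a b c : V} (h1 : an A o a c)
    (h2 : an A o b c) : a = b ∨ an A o a b ∨ an A o b a := by
  obtain ⟨i, hi⟩ := an_path A h1
  obtain ⟨j, hj⟩ := an_path A h2
  rcases le_total i j with h | h
  · exact an_cmp A ho (cmp A hi hj h)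
  · rcases an_cmp A ho (cmp A hj hi h) with h3 | h3 | h3
    · exact Or.inl h3.symm
    · exact Or.inr (Or.inr h3)
    · exact Or.inr (Or.inl h3)

variable [Fintype V] [DecidableEq V] [DecidableEq T]

/-- the guards -/
def gd (o : V → ℕ) (v : V) : Finset V :=
  (if A.h v = A.root then ∅ else A.X (A.h v)) ∪ univ.filter fun u => A.h u = A.h v ∧ o u < o v

theorem gd_out (o : V → ℕ) (v x : V) (hx : x ∈ gd A o v) : x ≠ v ∧ ¬ an A o v x := by
  rw [gd, mem_union, mem_filter] at hx
  rcases hx with hx | hx
  · split_ifs at hx with h0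
    · exact absurd hx (Finset.notMem_empty x)
    · have hno : ¬ ∃ i : ℕ, A.par^[i] (A.h x) = A.h v := fun h => (A.normal (A.h v) h0).1 x h hx
      refine ⟨?_, ?_⟩
      · rintro rfl
        exact hno ⟨0, rfl⟩
      · intro h
        exact hno (an_path A h)
  · refine ⟨?_, ?_⟩
    · rintro rfl
      exact absurd hx.2.2 (lt_irrefl _)
    · rintro (h | h)
      · exact h.1 hx.2.1.symm
      · exact absurd (h.2.trans hx.2.2) (lt_irrefl _)

end ARGX

open ARGX

theorem dtr_arg : S_ARG := by
  intro V T _ _ _ D A w hw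
  let o : V → ℕ := fun v => (Fintype.equivFin V v).val
  have ho : Function.Injective o := fun a b h => (Fintype.equivFin V).injective (Fin.ext h)
  refine ⟨⟨an A o, gd A o, fun a b c => an_trans A, an_irrefl A, fun a b c => an_chain A ho,
    gd_out A o⟩, ?_, ?_⟩
  · intro v
    show (gd A o v).card ≤ w
    have h1 := hw (A.h v)
    have hv : v ∉ gd A o v := fun h => (gd_out A o v v h).1 rfl
    have h2 : insert v (gd A o v) ⊆ (univ.filter fun u => A.h u = A.h v) ∪
        (if A.h v = A.root then ∅ else A.X (A.h v)) := by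
      intro x hx
      rw [mem_insert, gd, mem_union, mem_filter] at hx
      rw [mem_union, mem_filter]
      rcases hx with rfl | hx | hx
      · exact Or.inl ⟨mem_univ _, rfl⟩
      · exact Or.inr hx
      · exact Or.inl ⟨mem_univ _, hx.2.1⟩
    have h3 := card_le_card h2
    rw [card_insert_of_notMem hv] at h3
    omega
  · intro E hE v hin hout
    obtain ⟨a, haE, ha⟩ := hin
    obtain ⟨u, huE, hu⟩ := hout
    by_contra hno
    have hno' : ∀ x ∈ E, x ∉ gd A o v := fun x hx h => hno ⟨x, hx, h⟩
    have hall : ∀ c ∈ E, ∃ i : ℕ, A.par^[i] (A.h c) = A.h v := by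
      intro c hc
      by_cases h0 : A.h v = A.root
      · rw [h0]
        exact A.reach _
      · by_contra hcT
        have hdis : ∀ x ∈ E, x ∉ (A.X (A.h v) : Set V) := by
          intro x hx hxX
          apply hno' x hx
          rw [gd, if_neg h0, mem_union]
          exact Or.inl hxX
        have haT : a ∈ {v' | ∃ i : ℕ, A.par^[i] (A.h v') = A.h v} := by
          rcases ha with ha | ha
          · exact ⟨0, by rw [ha]; rfl⟩
          · exact an_path A ha
        have mono : ∀ p q, Rs D (fun u => u ∈ E) p q →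
            Rs D (fun u => u ∉ (A.X (A.h v) : Set V)) p q :=
          fun p q h => ⟨hdis p h.1, hdis q h.2.1, h.2.2⟩
        refine (A.normal (A.h v) h0).2 a haT a haT c hcT (hdis c hc) ⟨?_, ?_⟩
        · exact (Relation.TransGen.mono mono _ _ (hE.2 a haE c hc)).to_reflTransGen
        · exact (Relation.TransGen.mono mono _ _ (hE.2 c hc a haE)).to_reflTransGen
    have hua : ¬ (u = v ∨ an A o v u) := hu
    have hhu : A.h u = A.h v := by
      by_contra hne
      exact hua (Or.inr (Or.inl ⟨fun e => hne e.symm, hall u huE⟩))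
    rcases lt_trichotomy (o u) (o v) with h1 | h1 | h1
    · apply hno' u huE
      rw [gd, mem_union, mem_filter]
      exact Or.inr ⟨mem_univ _, hhu, h1⟩
    · exact hua (Or.inl (ho h1))
    · exact hua (Or.inr (Or.inr ⟨hhu.symm, h1⟩))

end Pool.Agent.DTR
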