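import Pool.Agent.DTR.Stmts

set_option autoImplicit false

namespace Pool.Agent.DTR

open Finset

namespace BATX

variable {V C : Type} [DecidableEq V]

theorem aux (P : (V → C) → Prop) (σ : V → C) (A : Finset V) (e : C)
    (h : ∀ A' ⊆ A, P fun v => if v ∈ A' then e else σ v) (A' : Finset V) :
    A' ⊆ A → Wk P σ (fun v => if v ∈ A' then e else σ v) (fun v => if v ∈ A' then 1 else 0) := by
  induction A' using Finset.induction_on with
  | empty =>
    intro _
    have h0 := h ∅ (Finset.empty_subset A)
    simpa using Wk.refl σ (by simpa using h0)
  | insert a s has ih =>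
    intro hs
    have h1 := ih (fun x hx => hs (Finset.mem_insert_of_mem hx))
    have h2 := h _ hs
    have e1 : Function.update (fun v => if v ∈ s then e else σ v) a e =
        fun v => if v ∈ insert a s then e else σ v := by
      funext v
      by_cases hv : v = a
      · subst hv
        simp
      · simp [Finset.mem_insert, hv]
    have h3 := Wk.step a e h1 (by rw [e1]; exact h2)
    rw [e1] at h3
    have e2 : Function.update (fun v => if v ∈ s then 1 else 0) a
        ((fun v => if v ∈ s then 1 else 0) a + 1) = fun v => if v ∈ insert a s then 1 else 0 := by
      funext v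
      by_cases hv : v = a
      · subst hv
        simp [has]
      · simp [Finset.mem_insert, hv]
    rw [e2] at h3
    exact h3

end BATX

theorem dtr_bat : S_BAT := by
  intro V C _ P σ A e h
  refine ⟨_, BATX.aux P σ A e h A (Finset.Subset.refl A), fun v => ?_⟩

  split_ifs <;> simp

end Pool.Agent.DTR
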