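import Pool.Agent.DTR.Stmts

/-!
# Module COR: recolouring to a proper colouring of the graph of home guards
-/

set_option autoImplicit false

namespace Pool.Agent.DTR

open Finset

namespace CORX

variable {V : Type} [DecidableEq V]

lemma qm_self (x y : V) : qm x y x = y := by
  rw [qm, if_pos rfl]

lemma qm_ne {x v : V} (y : V) (h : v ≠ x) : qm x y v = v := by
  rw [qm, if_neg h]

lemma comp_qm {C : Type} {x y : V} {α : V → C} (h : α x = α y) : α ∘ qm x y = α := by
  funext v
  show α (qm x y v) = α v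
  by_cases hv : v = x
  · rw [hv, qm_self, h]
  · rw [qm_ne y hv]

omit [DecidableEq V] in
lemma two_le {C : Type} {M : Set (Finset V)} {α : V → C} (h : Pr M α) :
    ∀ E ∈ M, 2 ≤ E.card := by
  intro E hE
  obtain ⟨a, ha, b, hb, hab⟩ := h E hE
  have : 1 < E.card := Finset.one_lt_card.2 ⟨a, ha, b, hb, fun h => hab (by rw [h])⟩
  omega

/-- proper colourings for all home guards -/
lemma pq_ne [Fintype V] {C : Type} {W : Wld V} {σ : V → C} (h : PQ (W.N univ) σ) {a b : V}
    (hab : W.Hg a b) : σ b ≠ σ a :=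
  h a b ((W.mem_N univ a b).2 ⟨mem_univ _, mem_univ _, hab⟩)

lemma pq_ne' [Fintype V] {C : Type} {W : Wld V} {σ : V → C} (h : PQ (W.N univ) σ) {a b : V}
    (hab : W.Hg a b ∨ W.Hg b a) : σ b ≠ σ a := by
  rcases hab with h1 | h1
  · exact pq_ne h h1
  · exact (pq_ne h h1).symm

end CORX

open CORX

theorem dtr_cor (h1 : S_WLK) (h2 : S_HG) (h3 : S_MRG) (h4 : S_LIF) (h5 : S_SWP) (h6 : S_GRD)
    (h7 : S_CPL) (h8 : S_SWE) : S_COR := by
  intro V _ _ w k hwk W hX M U
  induction hn : U.card using Nat.strong_induction_on generalizing W M U with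
  | _ j ih =>
  intro hC hU α hα
  subst hn
  obtain ⟨⟨r, hr⟩, hNX, hG3⟩ := h2 V W
  have hM2 := two_le hα
  have hlt : w + 1 < k := by omega
  by_cases hA : ∃ x ∈ U, ∃ y ∈ U, W.Hg x y ∧ α x = α y
  · obtain ⟨x, hx, y, hy, hxy, hαxy⟩ := hA
    have hne : x ≠ y := by
      rintro rfl
      exact W.irrefl x hxy.1
    obtain ⟨m1, m2, m3, m4, m5⟩ := h3 V W x y hxy.1 hxy
    have hcard : (U.erase x).card + 1 = U.card := Finset.card_erase_add_one hx
    have hU' : ∀ E ∈ ((fun E => E.image (qm x y)) '' M : Set (Finset V)), E ⊆ U.erase x := by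
      rintro _ ⟨E, hE, rfl⟩ v hv
      obtain ⟨u, hu, rfl⟩ := Finset.mem_image.1 hv
      by_cases hux : u = x
      · rw [hux, qm_self]
        exact Finset.mem_erase.2 ⟨hne.symm, hy⟩
      · rw [qm_ne y hux]
        exact Finset.mem_erase.2 ⟨hux, hU E hE hu⟩
    have hcomp : α ∘ qm x y = α := comp_qm hαxy
    have hPr' : Pr ((fun E => E.image (qm x y)) '' M : Set (Finset V)) α := by
      rintro _ ⟨E, hE, rfl⟩
      obtain ⟨a, ha, b, hb, hab⟩ := hα E hE
      refine ⟨qm x y a, Finset.mem_image_of_mem _ ha, qm x y b, Finset.mem_image_of_mem _ hb, ?_⟩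
      have e1 := congrFun hcomp a
      have e2 := congrFun hcomp b
      simp only [Function.comp_apply] at e1 e2
      rw [e1, e2]
      exact hab
    obtain ⟨σ', hσw, hσP, hσL⟩ := ih (U.erase x).card (by omega) (W.mrg x y hxy.1)
      (fun v => (m1 v).trans (hX v)) _ (U.erase x) rfl (m2 M hC) hU' α hPr'
    have hL := h4 V (Fin k) M x y hne _ α σ' hσL
    rw [hcomp] at hL
    have hσM : Pr M (σ' ∘ qm x y) := ((h1 V (Fin k) (Pr M) (Pr M) _ 0 _ _ α).2.1 hL).2
    have hq : ∀ v, v ≠ x → (σ' ∘ qm x y) v = σ' v := by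
      intro v hv
      show σ' (qm x y v) = σ' v
      rw [qm_ne y hv]
    have hqx : (σ' ∘ qm x y) x = σ' y := by
      show σ' (qm x y x) = σ' y
      rw [qm_self]
    have hcs : ∀ c : Fin k, c.val ≤ w → c ≠ ⟨w + 1, hlt⟩ := by
      intro c hc h
      rw [h] at hc
      simp at hc
    have hval : ∀ v, ((σ' ∘ qm x y) v).val ≤ w := fun v => hσw _
    have hadj : ∀ t, t ∈ W.N univ x → t ≠ y → (W.Hg t y ∨ W.Hg y t) := by
      intro t ht hty
      have hy' : y ∈ W.N univ x := (W.mem_N _ _ _).2 ⟨mem_univ _, mem_univ _, hxy⟩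
      rcases (hr univ).cl x t ht y hy' hty with h | h
      · exact Or.inl ((W.mem_N _ _ _).1 h).2.2
      · exact Or.inr ((W.mem_N _ _ _).1 h).2.2
    obtain ⟨σ0, s1, s2, -, s4, -⟩ := h5 V (Fin k) (W.N univ) r (hr univ) (Pr M) (σ' ∘ qm x y) x
      (σ' x) ⟨w + 1, hlt⟩ hσM
      (fun β hβ => hG3 (Fin k) M univ β hC (fun E _ => Finset.subset_univ E) hM2 hβ)
      (fun v => hcs _ (hval v)) (hcs _ (hσw x))
      (by rw [hqx]; exact pq_ne hσP m4)
      (by
        intro u hu t ht
        have h9 := m3 u t (fun h => hu (congrArg Prod.fst h)) ((W.mem_N _ _ _).1 ht).2.2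
        exact pq_ne' hσP h9)
      (by
        intro t ht
        by_cases hty : t = y
        · rw [hty, hq y hne.symm]
          exact pq_ne hσP m4
        · have htx : t ≠ x := by
            rintro rfl
            exact W.irrefl _ ((W.mem_N _ _ _).1 ht).2.2.1
          rw [hq t htx]
          exact (pq_ne' hσP (m5 t htx hty (Or.inr ((W.mem_N _ _ _).1 ht).2.2)
            (hadj t ht hty))).symm)
      (by
        intro u hu hxu t ht htu heq
        have hHux := ((W.mem_N _ _ _).1 hxu).2.2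
        have hHut := ((W.mem_N _ _ _).1 htu).2.2
        have hHxt := ((W.mem_N _ _ _).1 ht).2.2
        have htx : t ≠ x := by
          rintro rfl
          exact W.irrefl _ hHxt.1
        have hux : u ≠ x := by
          rintro rfl
          exact W.irrefl _ hHux.1
        by_cases hty : t = y
        · subst hty
          have hut : u ≠ t := by
            rintro rfl
            exact W.irrefl _ hHut.1
          have h9 := pq_ne' hσP (m5 u hux hut (Or.inl hHux) (Or.inl hHut))
          rw [hq u hux] at hu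
          exact h9 hu.symm
        · rw [hqx, hq t htx] at heq
          rcases hadj t ht hty with h9 | h9
          · have h10 := m3 t y (fun h => htx (congrArg Prod.fst h)) h9
            rw [qm_ne y htx, qm_ne y hne.symm] at h10
            exact pq_ne' hσP h10 heq.symm
          · have h10 := m3 y t (fun h => hne.symm (congrArg Prod.fst h)) h9
            rw [qm_ne y htx, qm_ne y hne.symm] at h10
            exact pq_ne' hσP h10 heq)
    refine ⟨σ0, ?_, s1, ?_⟩
    · intro v
      rcases s4 v with h | h | h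
      · rw [h]
        exact hval v
      · rw [h]
        exact hval x
      · rw [h]
        exact hσw x
    · have h9 := (h1 V (Fin k) (Pr M) (Pr M) _ 4 α (σ' ∘ qm x y) σ0).2.2.1 hL s2
      have h10 : 5 * Fintype.card V + 4 * (U.erase x).card + 4 =
          5 * Fintype.card V + 4 * U.card := by omega
      rw [h10] at h9
      exact h9
  · push Not at hA
    have hPQ : PQ (W.N U) α := by
      intro u t ht h
      obtain ⟨hu, ht', hut⟩ := (W.mem_N _ _ _).1 ht
      exact hA u hu t ht' hut h.symm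
    have hcard : ∀ U u, (W.N U u).card ≤ w := fun U u =>
      (Finset.card_le_card (hNX U u)).trans (hX u)
    obtain ⟨τ, t1, t2, t3⟩ := h7 V (W.N U) r w k α (hr U) (hcard U) (by omega) hPQ
    obtain ⟨σ, g1, g2⟩ := h6 V (W.N univ) r w k (hr univ).rk (hcard univ) (by omega)
    have hPσ : PQ (W.N U) σ := by
      intro u t ht
      obtain ⟨hu, ht', hut⟩ := (W.mem_N _ _ _).1 ht
      exact pq_ne g1 hut
    have hcs : ∀ c : Fin k, c.val ≤ w → c ≠ ⟨w + 1, hlt⟩ := by
      intro c hc h
      rw [h] at hc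
      simp at hc
    have h9 := h8 V (Fin k) (W.N U) r (hr U) τ σ ⟨w + 1, hlt⟩ t1 hPσ
      (fun v => hcs _ (t2 v)) (fun v => hcs _ (g2 v))
    refine ⟨σ, g2, g1, ?_⟩
    have h10 := (h1 V (Fin k) (PQ (W.N U)) (Pr M) _ _ α τ σ).2.2.1 t3 h9
    exact (h1 V (Fin k) (PQ (W.N U)) (Pr M) _ _ α σ σ).2.2.2.2.1
      (fun δ hδ => hG3 (Fin k) M U δ hC hU hM2 hδ) (by omega) h10

end Pool.Agent.DTR
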