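import Pool.Agent.DTR.Stmts

/-!
# MP_25e1c1_co: module CPL, recolouring a chordal graph to few colours without a spare colour
-/

set_option autoImplicit false

namespace Pool.Agent.DTR

namespace CPLX

open Finset

variable {V : Type} [Fintype V] [DecidableEq V]

/-- `v` can be reached from the last argument by up-neighbours -/
inductive Up (N : V → Finset V) (v : V) : V → Prop
  | base : Up N v v
  | step (u t : V) (h : t ∈ N u) (h' : Up N v t) : Up N v u

section facts

variable {N : V → Finset V} {r : V → ℕ} {F : Finset V} {v : V}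

theorem Up.notMem (hP : Peo N r) (hr : ∀ t ∈ F, ∀ u, u ∉ F → r t ≤ r u) (hv : v ∉ F) :
    ∀ {u : V}, Up N v u → u ∉ F := by
  intro u h
  induction h with
  | base => exact hv
  | step u t h _ ih =>
    intro hu
    have h1 := hr u hu t ih
    have h2 := hP.rk u t h
    omega

theorem Up.geq {k w : ℕ} {g : V → Fin (w + 1) → Fin k} (hP : Peo N r)
    (hr : ∀ t ∈ F, ∀ u, u ∉ F → r t ≤ r u) (hv : v ∉ F)
    (i3 : ∀ u, u ∉ F → ∀ t ∈ N u, t ∉ F → g t = g u) :
    ∀ {u : V}, Up N v u → g u = g v := by
  intro u h
  induction h with
  | base => rfl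
  | step u t h h' ih =>
    have hu : u ∉ F := Up.notMem hP hr hv (Up.step u t h h')
    have ht : t ∉ F := Up.notMem hP hr hv h'
    rw [← i3 u hu t h ht, ih]

theorem Up.d2 (hP : Peo N r) (hNv : ∀ t ∈ N v, t ∈ F) :
    ∀ {u : V}, Up N v u → u ≠ v → ∀ t ∈ N u, t ∉ F → Up N v t := by
  intro u h
  induction h with
  | base => exact fun h => absurd rfl h
  | step u t' h h' ih =>
    intro _ t ht htF
    by_cases e : t = t'
    · exact e ▸ h'
    · rcases hP.cl u t' h t ht (fun e' => e e'.symm) with h3 | h3
      · have : t' ≠ v := by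
          rintro rfl
          exact htF (hNv t h3)
        exact ih this t h3 htF
      · exact Up.step t t' h3 h'

theorem Up.d3 (hP : Peo N r) (hr : ∀ t ∈ F, ∀ u, u ∉ F → r t ≤ r u) (hv : v ∉ F) :
    ∀ {u : V}, Up N v u → ∀ t ∈ N u, t ∈ F → t ∈ N v := by
  intro u h
  induction h with
  | base => exact fun t ht _ => ht
  | step u t' h h' ih =>
    intro t ht htF
    have ht' : t' ∉ F := Up.notMem hP hr hv h'
    have e : t' ≠ t := by
      rintro rfl
      exact ht' htF
    rcases hP.cl u t' h t ht e with h3 | h3
    · exact ih t h3 htF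
    · have h4 := hr t htF t' ht'
      have h5 := hP.rk t t' h3
      omega

end facts

theorem main (h1 : S_WLK) (h2 : S_BAT) {N : V → Finset V} {r : V → ℕ} {w k : ℕ} (hP : Peo N r)
    (hc : ∀ u, (N u).card ≤ w) {α : V → Fin k} (hα : PQ N α) :
    ∀ (j : ℕ) (F : Finset V), Fᶜ.card = j → (∀ t ∈ F, ∀ u, u ∉ F → r t ≤ r u) →
      ∀ (s : V → Fin (w + 1)) (g : V → Fin (w + 1) → Fin k),
      (∀ u, u ∉ F → Function.Injective (g u)) →
      (∀ u, u ∉ F → ∀ t ∈ F, t ∈ N u → g u (s t) = α t) →
      (∀ u, u ∉ F → ∀ t ∈ N u, t ∉ F → g t = g u) →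
      ∃ s' : V → Fin (w + 1), (∀ t ∈ F, s' t = s t) ∧ (∀ u, u ∉ F → ∀ t ∈ N u, s' t ≠ s' u) ∧
        Lk (PQ N) j α (fun u => if u ∈ F then α u else g u (s' u)) := by
  classical
  intro j
  induction j with
  | zero =>
    intro F hF hr s g i1 i2 i3
    have hu : ∀ u, u ∈ F := by
      intro u
      by_contra h
      have : u ∈ Fᶜ := Finset.mem_compl.2 h
      rw [Finset.card_eq_zero.1 hF] at this
      simp at this
    refine ⟨s, fun _ _ => rfl, fun u h => absurd (hu u) h, ?_⟩
    have : (fun u => if u ∈ F then α u else g u (s u)) = α := by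
      funext u
      simp [hu u]
    rw [this]
    exact (h1 V (Fin k) (PQ N) (PQ N) 0 0 α α α).1 hα
  | succ j ih =>
    intro F hF hr s g i1 i2 i3
    have hne : (Fᶜ).Nonempty := by
      rw [← Finset.card_pos]
      omega
    obtain ⟨v, hv, hmin⟩ := Finset.exists_min_image Fᶜ r hne
    have hvF : v ∉ F := Finset.mem_compl.1 hv
    have hmin' : ∀ u, u ∉ F → r v ≤ r u := fun u hu => hmin u (Finset.mem_compl.2 hu)
    have hNv : ∀ t ∈ N v, t ∈ F := by
      intro t ht
      by_contra h
      have h3 := hmin' t h
      have h4 := hP.rk v t ht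
      omega
    obtain ⟨i, hi1, hi2⟩ : ∃ i : Fin (w + 1), ((g v i = α v) ∨ (∀ i', g v i' ≠ α v)) ∧
        ∀ t ∈ N v, s t ≠ i := by
      by_cases h : ∃ i, g v i = α v
      · obtain ⟨i, hi⟩ := h
        refine ⟨i, Or.inl hi, fun t ht e => ?_⟩
        have h3 := i2 v hvF t (hNv t ht) ht
        rw [e, hi] at h3
        exact hα v t ht h3.symm
      · have h' : ∀ i', g v i' ≠ α v := fun i' e => h ⟨i', e⟩
        have h3 : ((N v).image s).card < (univ : Finset (Fin (w + 1))).card := by
          have h4 : ((N v).image s).card ≤ (N v).card := Finset.card_image_le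
          have h5 := hc v
          simp only [Finset.card_univ, Fintype.card_fin]
          omega
        obtain ⟨i, _, hi⟩ := Finset.exists_mem_notMem_of_card_lt_card h3
        exact ⟨i, Or.inr h', fun t ht e => hi (e ▸ Finset.mem_image_of_mem s ht)⟩
    have dF : ∀ {u : V}, Up N v u → u ∉ F := fun h => Up.notMem hP hr hvF h
    have dg : ∀ {u : V}, Up N v u → g u = g v := fun h => Up.geq hP hr hvF i3 h
    -- the new data
    set F' : Finset V := insert v F with hF'
    set s1 : V → Fin (w + 1) := Function.update s v i with hs1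
    set g1 : V → Fin (w + 1) → Fin k :=
      fun u => if Up N v u then Function.update (g v) i (α v) else g u with hg1
    have g1D : ∀ {u : V}, Up N v u → g1 u = Function.update (g v) i (α v) := by
      intro u h
      simp only [hg1, if_pos h]
    have g1n : ∀ {u : V}, ¬ Up N v u → g1 u = g u := by
      intro u h
      simp only [hg1, if_neg h]
    have s1v : s1 v = i := by simp [hs1]
    have s1n : ∀ {u : V}, u ≠ v → s1 u = s u := by
      intro u h
      simp [hs1, h]
    have memF' : ∀ {u : V}, u ∈ F' ↔ u = v ∨ u ∈ F := by
      intro u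
      simp [hF']
    have hcF' : F'ᶜ.card = j := by
      have h3 : F'ᶜ = (Fᶜ).erase v := by
        ext u
        simp [hF']
      rw [h3, Finset.card_erase_of_mem hv, hF]
      rfl
    have hrF' : ∀ t ∈ F', ∀ u, u ∉ F' → r t ≤ r u := by
      intro t ht u hu
      have hu' : u ∉ F := fun h => hu (memF'.2 (Or.inr h))
      rcases memF'.1 ht with rfl | ht
      · exact hmin' u hu'
      · exact hr t ht u hu'
    have j1 : ∀ u, u ∉ F' → Function.Injective (g1 u) := by
      intro u hu
      have hu' : u ∉ F := fun h => hu (memF'.2 (Or.inr h))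
      by_cases hD : Up N v u
      · rw [g1D hD]
        have hinj := i1 v hvF
        rcases hi1 with hi1 | hi1
        · have : Function.update (g v) i (α v) = g v := by
            rw [← hi1, Function.update_eq_self]
          rw [this]
          exact hinj
        · intro a b hab
          by_cases ha : a = i
          · by_cases hb : b = i
            · rw [ha, hb]
            · rw [ha, Function.update_self, Function.update_of_ne hb] at hab
              exact absurd hab.symm (hi1 b)
          · by_cases hb : b = i
            · rw [hb, Function.update_self, Function.update_of_ne ha] at hab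
              exact absurd hab (hi1 a)
            · rw [Function.update_of_ne ha, Function.update_of_ne hb] at hab
              exact hinj hab
      · rw [g1n hD]
        exact i1 u hu'
    have j2 : ∀ u, u ∉ F' → ∀ t ∈ F', t ∈ N u → g1 u (s1 t) = α t := by
      intro u hu t ht htu
      have hu' : u ∉ F := fun h => hu (memF'.2 (Or.inr h))
      by_cases htv : t = v
      · subst htv
        have hD : Up N t u := Up.step u t htu Up.base
        rw [g1D hD, s1v, Function.update_self]
      · have htF : t ∈ F := (memF'.1 ht).resolve_left htv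
        rw [s1n htv]
        by_cases hD : Up N v u
        · have h3 : t ∈ N v := Up.d3 hP hr hvF hD t htu htF
          rw [g1D hD, Function.update_of_ne (hi2 t h3)]
          exact i2 v hvF t htF h3
        · rw [g1n hD]
          exact i2 u hu' t htF htu
    have j3 : ∀ u, u ∉ F' → ∀ t ∈ N u, t ∉ F' → g1 t = g1 u := by
      intro u hu t htu ht
      have hu' : u ∉ F := fun h => hu (memF'.2 (Or.inr h))
      have ht' : t ∉ F := fun h => ht (memF'.2 (Or.inr h))
      have huv : u ≠ v := fun h => hu (memF'.2 (Or.inl h))
      by_cases hD : Up N v u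
      · have hDt : Up N v t := Up.d2 hP hNv hD huv t htu ht'
        rw [g1D hD, g1D hDt]
      · have hDt : ¬ Up N v t := fun h => hD (Up.step u t htu h)
        rw [g1n hD, g1n hDt]
        exact i3 u hu' t htu ht'
    obtain ⟨s', ha, hb, hL⟩ := ih F' hcF' hrF' s1 g1 j1 j2 j3
    have s'v : s' v = i := by
      rw [ha v (memF'.2 (Or.inl rfl)), s1v]
    have s'F : ∀ t ∈ F, s' t = s t := by
      intro t ht
      have htv : t ≠ v := by
        rintro rfl
        exact hvF ht
      rw [ha t (memF'.2 (Or.inr ht)), s1n htv]
    have hprop : ∀ u, u ∉ F → ∀ t ∈ N u, s' t ≠ s' u := by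
      intro u hu t ht
      by_cases huv : u = v
      · subst huv
        rw [s'v, s'F t (hNv t ht)]
        exact hi2 t ht
      · refine hb u (fun h => ?_) t ht
        exact (memF'.1 h).elim huv hu
    refine ⟨s', s'F, hprop, ?_⟩
    set α1 : V → Fin k := fun u => if u ∈ F' then α u else g1 u (s' u) with hα1
    set A : Finset V := univ.filter (fun u => Up N v u ∧ s' u = i) with hA
    have memA : ∀ {u : V}, u ∈ A ↔ Up N v u ∧ s' u = i := by
      intro u
      simp [hA]
    have α1P : PQ N α1 := ((h1 V (Fin k) (PQ N) (PQ N) j j α α1 α1).2.1 hL).2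
    -- values of `α1`
    have α1F : ∀ {t : V}, t ∈ F → α1 t = α t := by
      intro t ht
      simp only [hα1, if_pos (memF'.2 (Or.inr ht))]
    have α1v : α1 v = α v := by
      simp only [hα1, if_pos (memF'.2 (Or.inl rfl))]
    have α1D : ∀ {t : V}, Up N v t → s' t ≠ i → α1 t = g v (s' t) := by
      intro t hD hne
      have htF : t ∉ F := dF hD
      have htv : t ≠ v := by
        rintro rfl
        exact hne s'v
      have : t ∉ F' := fun h => (memF'.1 h).elim htv htF
      simp only [hα1, if_neg this]
      rw [g1D hD, Function.update_of_ne hne]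
    -- the goal colouring
    have hgoal : (fun u => if u ∈ F then α u else g u (s' u)) =
        fun u => if u ∈ A then g v i else α1 u := by
      funext u
      by_cases huA : u ∈ A
      · have h3 := memA.1 huA
        rw [if_pos huA, if_neg (dF h3.1), dg h3.1, h3.2]
      · rw [if_neg huA]
        by_cases huF : u ∈ F
        · rw [if_pos huF, α1F huF]
        · rw [if_neg huF]
          by_cases hD : Up N v u
          · have hne : s' u ≠ i := fun h => huA (memA.2 ⟨hD, h⟩)
            rw [α1D hD hne, dg hD]
          · have huv : u ≠ v := by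
              rintro rfl
              exact hD Up.base
            have : u ∉ F' := fun h => (memF'.1 h).elim huv huF
            simp only [hα1, if_neg this]
            rw [g1n hD]
    rw [hgoal]
    have hinj := i1 v hvF
    have hbat : Lk (PQ N) 1 α1 fun u => if u ∈ A then g v i else α1 u := by
      refine h2 V (Fin k) (PQ N) α1 A (g v i) ?_
      intro A' hA' u t ht
      show (if t ∈ A' then g v i else α1 t) ≠ if u ∈ A' then g v i else α1 u
      by_cases huA : u ∈ A'
      · have hu := memA.1 (hA' huA)
        by_cases htA : t ∈ A'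
        · exfalso
          have h3 := memA.1 (hA' htA)
          exact hprop u (dF hu.1) t ht (h3.2.trans hu.2.symm)
        · rw [if_pos huA, if_neg htA]
          have hst : s' t ≠ i := by
            rw [← hu.2]
            exact hprop u (dF hu.1) t ht
          by_cases htF : t ∈ F
          · have h4 : g u (s t) = α t := i2 u (dF hu.1) t htF ht
            rw [α1F htF, ← h4, dg hu.1, ← s'F t htF]
            exact fun e => hst (hinj e)
          · have huv : u ≠ v := by
              rintro rfl
              exact htF (hNv t ht)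
            have hDt : Up N v t := Up.d2 hP hNv hu.1 huv t ht htF
            rw [α1D hDt hst]
            exact fun e => hst (hinj e)
      · by_cases htA : t ∈ A'
        · rw [if_neg huA, if_pos htA]
          have h3 := memA.1 (hA' htA)
          have hDu : Up N v u := Up.step u t ht h3.1
          have huF : u ∉ F := dF hDu
          have hsu : s' u ≠ i := by
            rw [← h3.2]
            exact (hprop u huF t ht).symm
          rw [α1D hDu hsu]
          exact fun e => hsu (hinj e).symm
        · rw [if_neg huA, if_neg htA]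
          exact α1P u t ht
    exact (h1 V (Fin k) (PQ N) (PQ N) j 1 α α1 _).2.2.1 hL hbat

end CPLX

open CPLX in
theorem dtr_cpl (h1 : S_WLK) (h2 : S_BAT) : S_CPL := by
  intro V _ _ N r w k α hP hc hk hα
  obtain ⟨s', _, hb, hL⟩ := CPLX.main h1 h2 hP hc hα (Fintype.card V) ∅ (by simp) (by simp)
    (fun _ => 0) (fun _ i => Fin.castLE hk i) (fun _ _ => Fin.castLE_injective hk)
    (by simp) (fun _ _ _ _ _ => rfl)
  refine ⟨fun u => Fin.castLE hk (s' u), ?_, ?_, ?_⟩
  · intro u t ht e
    exact hb u (by simp) t ht (Fin.castLE_injective hk e)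
  · intro v
    have := (s' v).isLt
    simp only [Fin.val_castLE]
    omega
  · simpa using hL

end Pool.Agent.DTR
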