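import Pool.Agent.DTR.Stmts

/-!
# Module DIC: dicolourings and strongly connected sets
-/

set_option autoImplicit false

namespace Pool.Agent.DTR

open Finset Relation

namespace DICX

variable {V C : Type}

lemma col_right {D : V → V → Prop} {p : V → Prop} {a b : V}
    (h : TransGen (Rs D p) a b) : p b := by
  cases h with
  | single h => exact h.2.1
  | tail _ h => exact h.2.1

lemma chain {D : V → V → Prop} {p q : V → Prop} {v : V}
    (hq : ∀ a, TransGen (Rs D p) v a → TransGen (Rs D p) a v → q a) {a b : V}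
    (h : TransGen (Rs D p) a b) (ha : TransGen (Rs D p) v a) (hb : TransGen (Rs D p) b v) :
    TransGen (Rs D q) a b := by
  induction h with
  | single h =>
    exact TransGen.single ⟨hq _ ha (TransGen.head h hb), hq _ (ha.tail h) hb, h.2.2⟩
  | tail h h' ih =>
    have h1 := TransGen.head h' hb
    exact (ih h1).tail ⟨hq _ (ha.trans h) h1, hq _ ((ha.trans h).tail h') hb, h'.2.2⟩

end DICX

open DICX in
theorem dtr_dic : S_DIC := by
  classical
  intro V C _ _ D α
  constructor
  · intro hD E hE
    by_contra hcon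
    push Not at hcon
    obtain ⟨⟨v, hv⟩, hE2⟩ := hE
    have key : ∀ a b, Rs D (fun u => u ∈ E) a b → Rs D (fun u => α u = α v) a b := by
      rintro a b ⟨ha, hb, hab⟩
      exact ⟨hcon a ha v hv, hcon b hb v hv, hab⟩
    exact hD (α v) v (TransGen.mono key v v (hE2 v hv v hv))
  · intro hP i v hv
    set E : Finset V := univ.filter fun a => TransGen (Rs D fun u => α u = i) v a ∧
      TransGen (Rs D fun u => α u = i) a v with hE
    have hmem : ∀ a, a ∈ E ↔ TransGen (Rs D fun u => α u = i) v a ∧
        TransGen (Rs D fun u => α u = i) a v := by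
      intro a
      rw [hE, mem_filter]
      exact ⟨fun h => h.2, fun h => ⟨mem_univ _, h⟩⟩
    have hE' : E ∈ MD D := by
      refine ⟨⟨v, (hmem v).2 ⟨hv, hv⟩⟩, ?_⟩
      intro a ha b hb
      obtain ⟨ha1, ha2⟩ := (hmem a).1 ha
      obtain ⟨hb1, hb2⟩ := (hmem b).1 hb
      exact chain (q := fun u => u ∈ E) (fun c h1 h2 => (hmem c).2 ⟨h1, h2⟩) (ha2.trans hb1)
        ha1 hb2
    obtain ⟨x, hx, y, hy, hxy⟩ := hP E hE'
    have h1 := col_right ((hmem x).1 hx).1
    have h2 := col_right ((hmem y).1 hy).1
    exact hxy (h1.trans h2.symm)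

end Pool.Agent.DTR
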