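import Pool.Agent.DTR.Stmts

/-!
# Module DIS: from recolouring sequences to distances in the dicolouring graph
-/

set_option autoImplicit false

namespace Pool.Agent.DTR

open Finset

namespace DISX

variable {V C : Type} [DecidableEq V]

/-- the last colouring of a sequence has the property -/
theorem last {P : (V → C) → Prop} {α β : V → C} {m : V → ℕ} (h : Wk P α β m) : P β := by
  cases h with
  | refl h => exact h
  | step v c h h' => exact h'

theorem sum_up [Fintype V] (m : V → ℕ) (v : V) :
    ∑ u, Function.update m v (m v + 1) u = ∑ u, m u + 1 := by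
  rw [Finset.sum_update_of_mem (mem_univ v), ← Finset.add_sum_erase univ m (mem_univ v),
    Finset.sdiff_singleton_eq_erase]
  ring

theorem walk [Fintype V] {D : V → V → Prop} {k : ℕ} {α β : V → Fin k} {m : V → ℕ}
    (h : Wk (Dic D) α β m) : ∀ (hα : Dic D α) (hβ : Dic D β),
      ∃ p : (dG D k).Walk ⟨α, hα⟩ ⟨β, hβ⟩, p.length ≤ ∑ v, m v := by
  induction h with
  | refl h =>
    intro hα hβ
    exact ⟨SimpleGraph.Walk.nil, Nat.zero_le _⟩
  | @step β m v c h h' ih =>
    intro hα hβ
    have hb : Dic D β := last h
    obtain ⟨p, hp⟩ := ih hα hb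
    by_cases hc : β v = c
    · have e : Function.update β v c = β := by
        rw [← hc]
        exact Function.update_eq_self v β
      have e2 : (⟨Function.update β v c, hβ⟩ : {α : V → Fin k // Dic D α}) = ⟨β, hb⟩ :=
        Subtype.ext e
      rw [e2]
      refine ⟨p, hp.trans ?_⟩
      rw [sum_up]
      exact Nat.le_succ _
    · have hadj : (dG D k).Adj ⟨β, hb⟩ ⟨Function.update β v c, hβ⟩ := by
        refine ⟨v, ?_, ?_⟩
        · change β v ≠ Function.update β v c v
          rw [Function.update_self]
          exact hc
        · intro u hu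
          change β u = Function.update β v c u
          rw [Function.update_of_ne hu]
      refine ⟨p.concat hadj, ?_⟩
      rw [SimpleGraph.Walk.length_concat, sum_up]
      exact Nat.succ_le_succ hp

end DISX

theorem dtr_dis : S_DIS := by
  intro V _ _ D k N α β h
  obtain ⟨m, hm, hN⟩ := h
  obtain ⟨p, hp⟩ := DISX.walk hm α.2 β.2
  refine ⟨⟨p⟩, (SimpleGraph.dist_le p).trans (hp.trans ?_)⟩
  calc ∑ v, m v ≤ ∑ _v : V, N := Finset.sum_le_sum fun v _ => hN v
    _ = N * Fintype.card V := by
      rw [Finset.sum_const, Finset.card_univ, smul_eq_mul, mul_comm]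

end Pool.Agent.DTR
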