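import Mathlib

/-!
# MP_25e1c1_co: recolouring digraphs and guarded trees. Definitions

`Lk P N α β`: the colouring `β` is obtained from `α` by recolouring one vertex at a time, through
colourings with the property `P`, every vertex being recoloured at most `N` times.
-/

set_option autoImplicit false

namespace Pool.Agent.DTR

open Finset

section walks

variable {V C : Type} [DecidableEq V]

/-- recolouring sequences; `m v` is the number of times the vertex `v` is recoloured -/
inductive Wk (P : (V → C) → Prop) : (V → C) → (V → C) → (V → ℕ) → Prop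
  | refl (α : V → C) (h : P α) : Wk P α α fun _ => 0
  | step {α β : V → C} {m : V → ℕ} (v : V) (c : C) (h : Wk P α β m)
      (h' : P (Function.update β v c)) :
      Wk P α (Function.update β v c) (Function.update m v (m v + 1))

/-- linked with at most `N` recolourings of every vertex -/
def Lk (P : (V → C) → Prop) (N : ℕ) (α β : V → C) : Prop :=
  ∃ m : V → ℕ, Wk P α β m ∧ ∀ v, m v ≤ N

/-- no member of `M` is monochromatic -/
def Pr (M : Set (Finset V)) (α : V → C) : Prop := ∀ E ∈ M, ∃ x ∈ E, ∃ y ∈ E, α x ≠ α y

/-- proper colourings of the graph in which the earlier neighbours of `u` are `N u` -/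
def PQ (N : V → Finset V) (α : V → C) : Prop := ∀ u, ∀ t ∈ N u, α t ≠ α u

/-- the earlier neighbours of every vertex form a clique (`r` is an elimination rank) -/
structure Peo (N : V → Finset V) (r : V → ℕ) : Prop where
  rk : ∀ u, ∀ t ∈ N u, r t < r u
  cl : ∀ u, ∀ y ∈ N u, ∀ z ∈ N u, y ≠ z → z ∈ N y ∨ y ∈ N z

end walks

/-- A forest order on `V` (`anc u v`: `u` is a proper ancestor of `v`) and guards consisting of
proper ancestors. -/
structure Wld (V : Type) [DecidableEq V] where
  /-- `u` is a proper ancestor of `v` -/
  anc : V → V → Prop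
  /-- the guards -/
  X : V → Finset V
  trans : ∀ a b c, anc a b → anc b c → anc a c
  irrefl : ∀ a, ¬ anc a a
  chain : ∀ a b c, anc a c → anc b c → a = b ∨ anc a b ∨ anc b a
  sub : ∀ v, ∀ x ∈ X v, anc x v

variable {V C : Type} [DecidableEq V]

namespace Wld

/-- `v` is in the subtree of `u` -/
def In (W : Wld V) (u v : V) : Prop := v = u ∨ W.anc u v

/-- `y` is a home guard of `u`: an ancestor which is in the guards of all vertices from the first
one below `y` down to `u` -/
def Hg (W : Wld V) (u y : V) : Prop := W.anc y u ∧ ∀ t, W.anc y t → W.In t u → y ∈ W.X t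

/-- `M` is compatible with `W`: a member which meets a subtree and its complement meets the guard -/
def Cmp (W : Wld V) (M : Set (Finset V)) : Prop :=
  ∀ E ∈ M, ∀ u, (∃ v ∈ E, W.In u v) → (∃ v ∈ E, ¬ W.In u v) → ∃ x ∈ E, x ∈ W.X u

open Classical in
/-- the home guards of `u`, inside the set `U` -/
noncomputable def N (W : Wld V) (U : Finset V) (u : V) : Finset V :=
  if u ∈ U then U.filter fun y => W.Hg u y else ∅

theorem mem_N (W : Wld V) (U : Finset V) (u y : V) :
    y ∈ W.N U u ↔ u ∈ U ∧ y ∈ U ∧ W.Hg u y := by
  unfold N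
  split_ifs with h
  · simp [h]
  · simp [h]

/-- the world in which `x` is identified with its ancestor `y` (and `x` is now the name of a
dummy) -/
def mrg (W : Wld V) (x y : V) (h : W.anc y x) : Wld V where
  anc := W.anc
  X u := if x ∈ W.X u ∧ y ∉ W.X u then insert y ((W.X u).erase x) else W.X u
  trans := W.trans
  irrefl := W.irrefl
  chain := W.chain
  sub v z hz := by
    split_ifs at hz with h1
    · rcases Finset.mem_insert.1 hz with rfl | h2
      · exact W.trans _ _ _ h (W.sub v x h1.1)
      · exact W.sub v z (Finset.mem_of_mem_erase h2)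
    · exact W.sub v z hz

end Wld

/-- the identification of `x` with `y` -/
def qm (x y v : V) : V := if v = x then y else v

/-! ### Digraphs -/

/-- the subdigraph induced by the vertices with the property `p` -/
def Rs (D : V → V → Prop) (p : V → Prop) (a b : V) : Prop := p a ∧ p b ∧ D a b

/-- a dicolouring: no colour class contains a directed cycle -/
def Dic (D : V → V → Prop) (α : V → C) : Prop :=
  ∀ i v, ¬ Relation.TransGen (Rs D fun u => α u = i) v v

/-- the vertex sets of strongly connected subdigraphs (with a cycle) -/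
def MD (D : V → V → Prop) : Set (Finset V) :=
  {E | E.Nonempty ∧ ∀ a ∈ E, ∀ b ∈ E, Relation.TransGen (Rs D fun u => u ∈ E) a b}

/-- the dicolouring graph: two `k`-dicolourings are adjacent when they differ at exactly one
vertex -/
def dG (D : V → V → Prop) (k : ℕ) : SimpleGraph {α : V → Fin k // Dic D α} where
  Adj α β := ∃ v, α.1 v ≠ β.1 v ∧ ∀ u, u ≠ v → α.1 u = β.1 u
  symm := ⟨fun _ _ ⟨v, h, h'⟩ => ⟨v, h.symm, fun u hu => (h' u hu).symm⟩⟩
  loopless := ⟨fun _ ⟨_, h, _⟩ => h rfl⟩

/-- `S` is `Z`-normal: `S` is disjoint from `Z` and no directed walk in `D - Z` starts and ends in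
`S` and visits a vertex outside `S ∪ Z` -/
def Nml (D : V → V → Prop) (Z S : Set V) : Prop :=
  (∀ v ∈ S, v ∉ Z) ∧ ∀ a ∈ S, ∀ b ∈ S, ∀ c, c ∉ S → c ∉ Z →
    ¬ (Relation.ReflTransGen (Rs D fun u => u ∉ Z) a c ∧
      Relation.ReflTransGen (Rs D fun u => u ∉ Z) c b)

/-- An arboreal decomposition of `D`. The out-arborescence is given by its root and the parent of
every node; the bag `W_t` is the set of the vertices `v` with `h v = t`; `X s` is the guard of the
arc `(par s, s)`, `s ≠ root`. -/
structure Arb (D : V → V → Prop) (T : Type) where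
  root : T
  par : T → T
  proot : par root = root
  reach : ∀ t, ∃ i : ℕ, par^[i] t = root
  h : V → T
  surj : Function.Surjective h
  X : T → Finset V
  normal : ∀ s, s ≠ root → Nml D (X s) {v | ∃ i : ℕ, par^[i] (h v) = s}

namespace Arb

variable {D : V → V → Prop} {T : Type}

/-- the node `s` is a proper ancestor of the node `t` -/
def Anc (A : Arb D T) (s t : T) : Prop := s ≠ t ∧ ∃ i : ℕ, A.par^[i] t = s

end Arb

end Pool.Agent.DTR
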