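import Pool.Agent.DTR.Stmts

/-!
# MP_25e1c1_co, part 2: arbitrary guards. Definitions
-/

set_option autoImplicit false

namespace Pool.Agent.DTR

open Finset

/-- A forest order on `V` (`anc u v`: `u` is a proper ancestor of `v`) and guards `X v`, which are
arbitrary subsets of the complement of the subtree of `v`. -/
structure GW (V : Type) [DecidableEq V] where
  /-- `u` is a proper ancestor of `v` -/
  anc : V → V → Prop
  /-- the guards -/
  X : V → Finset V
  trans : ∀ a b c, anc a b → anc b c → anc a c
  irrefl : ∀ a, ¬ anc a a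
  chain : ∀ a b c, anc a c → anc b c → a = b ∨ anc a b ∨ anc b a
  out : ∀ v, ∀ x ∈ X v, x ≠ v ∧ ¬ anc v x

variable {V : Type} [DecidableEq V]

namespace GW

/-- `v` is in the subtree of `u` -/
def In (G : GW V) (u v : V) : Prop := v = u ∨ G.anc u v

/-- `M` is compatible with `G`: a member which meets a subtree and its complement meets the guard -/
def Cmp (G : GW V) (M : Set (Finset V)) : Prop :=
  ∀ E ∈ M, ∀ u, (∃ v ∈ E, G.In u v) → (∃ v ∈ E, ¬ G.In u v) → ∃ x ∈ E, x ∈ G.X u

end GW

/-- the colouring is in `Pr M`, the vertices in `U` have colours `< m` and the other vertices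
have colours `≥ m` -/
def St {k : ℕ} (M : Set (Finset V)) (U : Finset V) (m : ℕ) (β : V → Fin k) : Prop :=
  Pr M β ∧ (∀ v ∈ U, (β v).val < m) ∧ ∀ v, v ∉ U → m ≤ (β v).val

end Pool.Agent.DTR
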