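import Pool.Agent.DTR.Stmts2

/-!
# MP_25e1c1_co, part 2: module ELB (elimination of a colour from a set closed under descendants)
-/

set_option autoImplicit false

namespace Pool.Agent.DTR

open Finset

namespace ELBX

/-- a nonempty finite set has an element without proper ancestors in the set -/
theorem top {V : Type} [DecidableEq V] (G : GW V) (Q : Finset V) (hQ : Q.Nonempty) :
    ∃ c ∈ Q, ∀ u ∈ Q, ¬ G.anc u c := by
  classical
  obtain ⟨c, hc, hmin⟩ := Finset.exists_min_image Q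
    (fun v => (Q.filter fun u => G.anc u v).card) hQ
  refine ⟨c, hc, fun u hu huc => ?_⟩
  have h1 : (Q.filter fun t => G.anc t u) ⊂ (Q.filter fun t => G.anc t c) := by
    refine (Finset.ssubset_iff_of_subset ?_).2 ⟨u, ?_, ?_⟩
    · intro t ht
      rw [Finset.mem_filter] at ht ⊢
      exact ⟨ht.1, G.trans _ _ _ ht.2 huc⟩
    · rw [Finset.mem_filter]
      exact ⟨hu, huc⟩
    · rw [Finset.mem_filter]
      exact fun h => G.irrefl u h.2
  have h2 := Finset.card_lt_card h1
  have h3 := hmin u hu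
  omega

theorem colour {V : Type} [DecidableEq V] {k m : ℕ} (hmk : m ≤ k) (F : Finset V)
    (σ : V → Fin k) (c : V) (hq : F.card + 1 < m) :
    ∃ g : Fin k, g.val < m ∧ σ c ≠ g ∧ ∀ z ∈ F, σ z ≠ g := by
  have h1 : (insert (σ c) (F.image σ)).card <
      ((Finset.univ : Finset (Fin m)).map (Fin.castLEEmb hmk)).card := by
    rw [Finset.card_map, Finset.card_univ, Fintype.card_fin]
    have h2 := Finset.card_insert_le (σ c) (F.image σ)
    have h3 : (F.image σ).card ≤ F.card := Finset.card_image_le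
    omega
  obtain ⟨g, hg, hg'⟩ := Finset.exists_mem_notMem_of_card_lt_card h1
  refine ⟨g, ?_, ?_, ?_⟩
  · obtain ⟨i, _, rfl⟩ := Finset.mem_map.1 hg
    exact i.2
  · intro h
    exact hg' (h ▸ Finset.mem_insert_self _ _)
  · intro z hz h
    exact hg' (h ▸ Finset.mem_insert_of_mem (Finset.mem_image_of_mem σ hz))

theorem main (h1 : S_WLK) (h2 : S_BAT) (V : Type) [Fintype V] [DecidableEq V] (k : ℕ) (G : GW V)
    (M : Set (Finset V)) (hM : G.Cmp M) (U : Finset V) (m : ℕ) (hmk : m ≤ k)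
    (hX : ∀ u ∈ U, (G.X u ∩ U).card + 1 < m) : ∀ (n : ℕ) (Q : Finset V), Q.card = n → Q ⊆ U →
    (∀ v ∈ Q, ∀ u ∈ U, G.anc v u → u ∈ Q) →
    ∀ (h : Fin k) (σ : V → Fin k), St M U m σ →
      ∃ σ' : V → Fin k, (∀ v, v ∉ Q → σ' v = σ v) ∧ (∀ v ∈ Q, σ' v ≠ h) ∧
        Lk (St M U m) Q.card σ σ' := by
  classical
  intro n
  induction n using Nat.strong_induction_on with
  | _ n ih =>
  intro Q hn hQU hcl h σ hσ
  rcases Finset.eq_empty_or_nonempty Q with rfl | hne
  · exact ⟨σ, fun _ _ => rfl, fun v hv => absurd hv (Finset.notMem_empty v),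
      (h1 V (Fin k) (St M U m) (St M U m) _ 0 σ σ σ).1 hσ⟩
  obtain ⟨c, hcQ, hctop⟩ := top G Q hne
  have hcU : c ∈ U := hQU hcQ
  set S : Finset V := U.filter (fun v => G.In c v) with hS
  have memS : ∀ v, v ∈ S ↔ v ∈ U ∧ G.In c v := fun v => by rw [hS, Finset.mem_filter]
  have hcS : c ∈ S := (memS c).2 ⟨hcU, Or.inl rfl⟩
  have hSQ : S ⊆ Q := by
    intro v hv
    obtain ⟨hvU, hv | hv⟩ := (memS v).1 hv
    · exact hv ▸ hcQ
    · exact hcl c hcQ v hvU hv
  have hcard1 : (S.erase c).card + 1 = S.card := Finset.card_erase_add_one hcS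
  have hcard2 : (Q \ S).card + S.card = Q.card := Finset.card_sdiff_add_card_eq_card hSQ
  -- step 1
  obtain ⟨σ1, ha1, hb1, hl1⟩ := ih (Q \ S).card (by omega) (Q \ S) rfl
    (Finset.sdiff_subset.trans hQU) (by
      intro v hv u huU hvu
      obtain ⟨hvQ, hvS⟩ := Finset.mem_sdiff.1 hv
      refine Finset.mem_sdiff.2 ⟨hcl v hvQ u huU hvu, fun huS => ?_⟩
      rcases ((memS u).1 huS).2 with hu | hu
      · exact hctop v hvQ (hu ▸ hvu)
      · rcases G.chain v c u hvu hu with h3 | h3 | h3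
        · exact hvS (h3 ▸ hcS)
        · exact hctop v hvQ h3
        · exact hvS ((memS v).2 ⟨hQU hvQ, Or.inr h3⟩)) h σ hσ
  have hσ1 : St M U m σ1 := ((h1 V (Fin k) (St M U m) (St M U m) _ 0 σ σ1 σ1).2.1 hl1).2
  -- step 2
  obtain ⟨g, hgm, hgc, hgX⟩ := colour hmk (G.X c ∩ U) σ1 c (hX c hcU)
  -- step 3
  obtain ⟨σ2, ha2, hb2, hl2⟩ := ih (S.erase c).card (by omega) (S.erase c) rfl
    ((Finset.erase_subset _ _).trans (hSQ.trans hQU)) (by
      intro v hv u huU hvu
      obtain ⟨hvc, hvS⟩ := Finset.mem_erase.1 hv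
      have hcv : G.anc c v := by
        rcases ((memS v).1 hvS).2 with h3 | h3
        · exact absurd h3 hvc
        · exact h3
      have hcu : G.anc c u := G.trans _ _ _ hcv hvu
      refine Finset.mem_erase.2 ⟨fun h3 => ?_, (memS u).2 ⟨huU, Or.inr hcu⟩⟩
      rw [h3] at hcu
      exact G.irrefl c hcu) g σ1 hσ1
  have hσ2 : St M U m σ2 := ((h1 V (Fin k) (St M U m) (St M U m) _ 0 σ1 σ2 σ2).2.1 hl2).2
  have hS2 : ∀ v ∈ S, σ2 v ≠ g := by
    intro v hv
    by_cases hvc : v = c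
    · rw [hvc, ha2 c (fun h3 => (Finset.mem_erase.1 h3).1 rfl)]
      exact hgc
    · exact hb2 v (Finset.mem_erase.2 ⟨hvc, hv⟩)
  have hXS : ∀ z ∈ G.X c, z ∉ S := by
    intro z hz hzS
    obtain ⟨h3, h4⟩ := G.out c z hz
    rcases ((memS z).1 hzS).2 with h5 | h5
    · exact h3 h5
    · exact h4 h5
  have hX2 : ∀ z ∈ G.X c, z ∈ U → σ2 z ≠ g := by
    intro z hz hzU
    rw [ha2 z (fun h3 => hXS z hz (Finset.mem_erase.1 h3).2)]
    exact hgX z (Finset.mem_inter.2 ⟨hz, hzU⟩)
  -- step 4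
  set A : Finset V := S.filter (fun v => σ2 v = h) with hA
  have memA : ∀ v, v ∈ A ↔ v ∈ S ∧ σ2 v = h := fun v => by rw [hA, Finset.mem_filter]
  have hl3 : Lk (St M U m) 1 σ2 (fun v => if v ∈ A then g else σ2 v) := by
    apply h2 V (Fin k) (St M U m) σ2 A g
    intro A' hA'
    have hA'S : ∀ v ∈ A', v ∈ S := fun v hv => ((memA v).1 (hA' hv)).1
    have hA'U : ∀ v ∈ A', v ∈ U := fun v hv => ((memS v).1 (hA'S v hv)).1
    refine ⟨?_, ?_, ?_⟩
    · intro E hE
      by_contra hcon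
      push Not at hcon
      have hcon' : ∀ x ∈ E, ∀ y ∈ E, (if x ∈ A' then g else σ2 x) = (if y ∈ A' then g else σ2 y) :=
        fun x hx y hy => hcon x hx y hy
      obtain ⟨x0, hx0, y0, hy0, hxy⟩ := hσ2.1 E hE
      -- `E` meets `A'`
      have hmeet : ∃ e ∈ E, e ∈ A' := by
        by_contra hno
        push Not at hno
        have h3 := hcon' x0 hx0 y0 hy0
        rw [if_neg (hno x0 hx0), if_neg (hno y0 hy0)] at h3
        exact hxy h3
      obtain ⟨e, heE, heA⟩ := hmeet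
      have hall : ∀ x ∈ E, x ∉ A' → σ2 x = g := by
        intro x hx hxA
        have h3 := hcon' x hx e heE
        rw [if_neg hxA, if_pos heA] at h3
        exact h3
      have hEU : ∀ x ∈ E, x ∈ U := by
        intro x hx
        by_contra hxU
        have hxA : x ∉ A' := fun h3 => hxU (hA'U x h3)
        have h3 := hall x hx hxA
        have h4 := hσ2.2.2 x hxU
        rw [h3] at h4
        omega
      by_cases hin : ∀ x ∈ E, G.In c x
      · have hEA : ∀ x ∈ E, x ∈ A' := by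
          intro x hx
          by_contra hxA
          exact hS2 x ((memS x).2 ⟨hEU x hx, hin x hx⟩) (hall x hx hxA)
        apply hxy
        rw [((memA x0).1 (hA' (hEA x0 hx0))).2, ((memA y0).1 (hA' (hEA y0 hy0))).2]
      · push Not at hin
        obtain ⟨z, hzE, hzX⟩ := hM E hE c ⟨e, heE, ((memS e).1 (hA'S e heA)).2⟩ hin
        have hzA : z ∉ A' := fun h3 => hXS z hzX (hA'S z h3)
        exact hX2 z hzX (hEU z hzE) (hall z hzE hzA)
    · intro v hv
      show (if v ∈ A' then g else σ2 v).val < m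
      by_cases hvA : v ∈ A'
      · rw [if_pos hvA]
        exact hgm
      · rw [if_neg hvA]
        exact hσ2.2.1 v hv
    · intro v hv
      show m ≤ (if v ∈ A' then g else σ2 v).val
      rw [if_neg (fun h3 => hv (hA'U v h3))]
      exact hσ2.2.2 v hv
  refine ⟨fun v => if v ∈ A then g else σ2 v, ?_, ?_, ?_⟩
  · intro v hv
    have hvS : v ∉ S := fun h3 => hv (hSQ h3)
    show (if v ∈ A then g else σ2 v) = σ v
    rw [if_neg (fun h3 => hvS ((memA v).1 h3).1),
      ha2 v (fun h3 => hvS (Finset.mem_erase.1 h3).2),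
      ha1 v (fun h3 => hv (Finset.mem_sdiff.1 h3).1)]
  · intro v hv
    show (if v ∈ A then g else σ2 v) ≠ h
    by_cases hvS : v ∈ S
    · by_cases hvA : v ∈ A
      · rw [if_pos hvA]
        intro h3
        exact hS2 v hvS (((memA v).1 hvA).2.trans h3.symm)
      · rw [if_neg hvA]
        intro h3
        exact hvA ((memA v).2 ⟨hvS, h3⟩)
    · rw [if_neg (fun h3 => hvS ((memA v).1 h3).1),
        ha2 v (fun h3 => hvS (Finset.mem_erase.1 h3).2)]
      exact hb1 v (Finset.mem_sdiff.2 ⟨hv, hvS⟩)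
  · have h3 := (h1 V (Fin k) (St M U m) (St M U m) _ _ σ σ1 σ2).2.2.1 hl1 hl2
    have h4 := (h1 V (Fin k) (St M U m) (St M U m) _ _ σ σ2 _).2.2.1 h3 hl3
    have h5 : (Q \ S).card + (S.erase c).card + 1 = Q.card := by omega
    rw [h5] at h4
    exact h4

end ELBX

theorem dtr_elb (h1 : S_WLK) (h2 : S_BAT) : S_ELB := by
  intro V _ _ k G M hM U m hmk hX Q hQU hcl h σ hσ
  exact ELBX.main h1 h2 V k G M hM U m hmk hX Q.card Q rfl hQU hcl h σ hσ

end Pool.Agent.DTR
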