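import Pool.Agent.DTR.Stmts2

/-!
# MP_25e1c1_co, part 2: the module EXG
-/

set_option autoImplicit false

namespace Pool.Agent.DTR

open Finset

theorem EXGX.aux (h1 : S_MIS) (V : Type) [Fintype V] [DecidableEq V] (k : ℕ) (G : GW V)
    (M : Set (Finset V)) (hM : G.Cmp M) (h2 : ∀ E ∈ M, 2 ≤ E.card) (hk : 0 < k) :
    ∀ (q : ℕ) (U : Finset V), q ≤ k → (∀ u ∈ U, (G.X u ∩ U).card + 1 ≤ q) →
      ∃ τ : V → Fin k, (∀ v ∈ U, (τ v).val < q) ∧
        ∀ E ∈ M, E ⊆ U → ∃ x ∈ E, ∃ y ∈ E, τ x ≠ τ y := by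
  intro q
  induction q with
  | zero =>
    intro U _ hU
    refine ⟨fun _ => ⟨0, hk⟩, ?_, ?_⟩
    · intro v hv
      have := hU v hv
      omega
    · intro E hE hEU
      exfalso
      have hE2 := h2 E hE
      obtain ⟨e, he⟩ : E.Nonempty := Finset.card_pos.1 (by omega)
      have := hU e (hEU he)
      omega
  | succ q ih =>
    intro U hq hU
    obtain ⟨J, hJU, hJ1, hJ2⟩ := h1 V G M hM h2 U
    have hU' : ∀ u ∈ U \ J, (G.X u ∩ (U \ J)).card + 1 ≤ q := by
      intro u hu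
      obtain ⟨huU, huJ⟩ := Finset.mem_sdiff.1 hu
      obtain ⟨z, hzJ, hzX⟩ := hJ1 u huU huJ
      have hlt : (G.X u ∩ (U \ J)).card < (G.X u ∩ U).card := by
        apply Finset.card_lt_card
        refine Finset.ssubset_iff_of_subset ?_ |>.2 ⟨z, ?_, ?_⟩
        · intro y hy
          rw [Finset.mem_inter, Finset.mem_sdiff] at hy
          exact Finset.mem_inter.2 ⟨hy.1, hy.2.1⟩
        · exact Finset.mem_inter.2 ⟨hzX, hJU hzJ⟩
        · intro hz
          rw [Finset.mem_inter, Finset.mem_sdiff] at hz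
          exact hz.2.2 hzJ
      have := hU u huU
      omega
    obtain ⟨τ, hτ1, hτ2⟩ := ih (U \ J) (by omega) hU'
    refine ⟨fun v => if v ∈ J then ⟨q, by omega⟩ else τ v, ?_, ?_⟩
    · intro v hv
      by_cases hvJ : v ∈ J
      · simp [hvJ]
      · simp only [hvJ, if_false]
        have := hτ1 v (Finset.mem_sdiff.2 ⟨hv, hvJ⟩)
        omega
    · intro E hE hEU
      by_cases hEJ : ∃ x ∈ E, x ∈ J
      · obtain ⟨x, hx, hxJ⟩ := hEJ
        obtain ⟨y, hy, hyJ⟩ : ∃ y ∈ E, y ∉ J := by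
          by_contra hcon
          push Not at hcon
          exact hJ2 E hE hcon
        refine ⟨x, hx, y, hy, ?_⟩
        simp only [hxJ, hyJ, if_true, if_false]
        intro heq
        have h3 := hτ1 y (Finset.mem_sdiff.2 ⟨hEU hy, hyJ⟩)
        rw [← heq] at h3
        simp at h3
      · push Not at hEJ
        obtain ⟨x, hx, y, hy, hxy⟩ := hτ2 E hE (fun z hz =>
          Finset.mem_sdiff.2 ⟨hEU hz, hEJ z hz⟩)
        refine ⟨x, hx, y, hy, ?_⟩
        simpa [hEJ x hx, hEJ y hy] using hxy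

/-- **EXG.** -/
theorem dtr_exg (h1 : S_MIS) : S_EXG := by
  intro V _ _ k G M hM h2 w hw hk
  obtain ⟨τ, -, hτ⟩ := EXGX.aux h1 V k G M hM h2 (by omega) (w + 1) Finset.univ hk (by
    intro u _
    have := hw u
    rw [Finset.inter_univ]
    omega)
  exact ⟨τ, fun E hE => hτ E hE (Finset.subset_univ E)⟩

end Pool.Agent.DTR
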