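import Pool.Agent.DTR.Stmts

/-!
# DTR: greedy colouring
-/

set_option autoImplicit false

namespace Pool.Agent.DTR

open Finset

namespace GRDX

/-- the greedy step -/
theorem greedy {V : Type} [Fintype V] [DecidableEq V] (N : V → Finset V) (r : V → ℕ) (w k : ℕ)
    (h1 : ∀ u, ∀ t ∈ N u, r t < r u) (h2 : ∀ u, (N u).card ≤ w) (h3 : w + 1 ≤ k) :
    ∀ n : ℕ, ∃ σ : V → Fin k, (∀ v, (σ v).val ≤ w) ∧
      ∀ u, r u < n → ∀ t ∈ N u, σ t ≠ σ u := by
  intro n
  induction n with
  | zero => exact ⟨fun _ => ⟨0, by omega⟩, fun _ => Nat.zero_le _, fun u hu => absurd hu (by omega)⟩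
  | succ n ih =>
    obtain ⟨σ, hσ1, hσ2⟩ := ih
    have hfree : ∀ u : V, ∃ c : Fin k, c.val ≤ w ∧ ∀ t ∈ N u, σ t ≠ c := by
      intro u
      have hcard : ((N u).image fun t => (σ t).val).card < (Finset.range (w + 1)).card := by
        rw [Finset.card_range]
        exact lt_of_le_of_lt Finset.card_image_le (Nat.lt_succ_of_le (h2 u))
      obtain ⟨c, hc1, hc2⟩ := Finset.exists_mem_notMem_of_card_lt_card hcard
      rw [Finset.mem_range] at hc1
      refine ⟨⟨c, by omega⟩, by simpa using Nat.le_of_lt_succ hc1, fun t ht h => hc2 ?_⟩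
      rw [Finset.mem_image]
      exact ⟨t, ht, by rw [h]⟩
    choose f hf1 hf2 using hfree
    refine ⟨fun v => if r v = n then f v else σ v, fun v => ?_, fun u hu t ht => ?_⟩
    · by_cases h : r v = n
      · simp only [h, if_true]; exact hf1 v
      · simp only [h, if_false]; exact hσ1 v
    · have hlt := h1 u t ht
      have htn : r t ≠ n := by omega
      by_cases h : r u = n
      · simp only [h, if_true, htn, if_false]
        exact hf2 u t ht
      · simp only [h, if_false, htn]
        exact hσ2 u (by omega) t ht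

end GRDX

/-- greedy colouring -/
theorem dtr_grd : S_GRD := by
  intro V _ _ N r w k h1 h2 h3
  obtain ⟨σ, hσ1, hσ2⟩ := GRDX.greedy N r w k h1 h2 h3 ((Finset.univ.sup r) + 1)
  refine ⟨σ, fun u t ht => hσ2 u ?_ t ht, hσ1⟩
  exact Nat.lt_succ_of_le (Finset.le_sup (f := r) (Finset.mem_univ u))

end Pool.Agent.DTR
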