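import Pool.Agent.DTR.Stmts

/-!
# Module HG: facts about home guards
-/

set_option autoImplicit false

namespace Pool.Agent.DTR

open Finset

namespace HGX

variable {V : Type} [Fintype V] [DecidableEq V]

open Classical in
/-- the number of proper ancestors -/
noncomputable def rk (W : Wld V) (u : V) : ℕ := (univ.filter fun y => W.anc y u).card

theorem rk_lt (W : Wld V) {t u : V} (h : W.anc t u) : rk W t < rk W u := by
  classical
  unfold rk
  refine card_lt_card ?_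
  rw [Finset.ssubset_iff_of_subset]
  · exact ⟨t, by simpa using h, by simpa using W.irrefl t⟩
  · intro y hy
    simp only [mem_filter, mem_univ, true_and] at hy ⊢
    exact W.trans _ _ _ hy h

theorem hg_of (W : Wld V) {u y z : V} (hy : W.Hg u y) (hz : W.anc z u) (hyz : W.anc y z) :
    W.Hg z y := by
  refine ⟨hyz, fun t h1 h2 => hy.2 t h1 ?_⟩
  rcases h2 with h2 | h2
  · rw [← h2]
    exact Or.inr hz
  · exact Or.inr (W.trans _ _ _ h2 hz)

theorem peo (W : Wld V) (U : Finset V) : Peo (W.N U) (rk W) := by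
  refine ⟨?_, ?_⟩
  · intro u t ht
    rw [Wld.mem_N] at ht
    exact rk_lt W ht.2.2.1
  · intro u y hy z hz hne
    rw [Wld.mem_N] at hy hz
    rcases W.chain y z u hy.2.2.1 hz.2.2.1 with h | h | h
    · exact absurd h hne
    · right
      rw [Wld.mem_N]
      exact ⟨hz.2.1, hy.2.1, hg_of W hy.2.2 hz.2.2.1 h⟩
    · left
      rw [Wld.mem_N]
      exact ⟨hy.2.1, hz.2.1, hg_of W hz.2.2 hy.2.2.1 h⟩

theorem exists_anc (W : Wld V) {M : Set (Finset V)} (hM : W.Cmp M) {E : Finset V} (hE : E ∈ M)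
    (hc : 2 ≤ E.card) : ∃ u ∈ E, ∃ r ∈ E, W.anc r u := by
  obtain ⟨a, ha, b, hb, hab⟩ := Finset.one_lt_card.1 hc
  by_cases h : W.anc a b
  · exact ⟨b, hb, a, ha, h⟩
  · obtain ⟨x, hx, hx2⟩ := hM E hE a ⟨a, ha, Or.inl rfl⟩ ⟨b, hb, by
      rintro (h1 | h1)
      · exact hab h1.symm
      · exact h h1⟩
    exact ⟨a, ha, x, hx, W.sub a x hx2⟩

theorem pr (W : Wld V) {C : Type} {M : Set (Finset V)} {U : Finset V} {α : V → C}
    (hM : W.Cmp M) (hU : ∀ E ∈ M, E ⊆ U) (hc : ∀ E ∈ M, 2 ≤ E.card) (hα : PQ (W.N U) α) :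
    Pr M α := by
  classical
  intro E hE
  obtain ⟨u₀, hu₀, r₀, hr₀, h₀⟩ := exists_anc W hM hE (hc E hE)
  obtain ⟨u, hu, hmin⟩ := exists_min_image (E.filter fun u => ∃ r ∈ E, W.anc r u) (rk W)
    ⟨u₀, by simpa using ⟨hu₀, r₀, hr₀, h₀⟩⟩
  rw [mem_filter] at hu
  obtain ⟨huE, r, hr, hru⟩ := hu
  have huniq : ∀ z ∈ E, W.anc z u → z = r := by
    intro z hz hzu
    rcases W.chain z r u hzu hru with h | h | h
    · exact h
    · have h1 := hmin r (by rw [mem_filter]; exact ⟨hr, z, hz, h⟩)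
      exact absurd (rk_lt W hru) (not_lt.2 h1)
    · have h1 := hmin z (by rw [mem_filter]; exact ⟨hz, r, hr, h⟩)
      exact absurd (rk_lt W hzu) (not_lt.2 h1)
  have hHg : W.Hg u r := by
    refine ⟨hru, fun t h1 h2 => ?_⟩
    obtain ⟨z, hz, hz2⟩ := hM E hE t ⟨u, huE, h2⟩ ⟨r, hr, by
      rintro (h3 | h3)
      · rw [h3] at h1
        exact W.irrefl t h1
      · exact W.irrefl r (W.trans _ _ _ h1 h3)⟩
    have h3 := W.sub t z hz2
    have h4 : W.anc z u := by
      rcases h2 with h2 | h2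
      · rw [h2]
        exact h3
      · exact W.trans _ _ _ h3 h2
    rw [← huniq z hz h4]
    exact hz2
  refine ⟨r, hr, u, huE, hα u r ?_⟩
  rw [Wld.mem_N]
  exact ⟨hU E hE huE, hU E hE hr, hHg⟩

end HGX

open HGX

theorem dtr_hg : S_HG := by
  intro V _ _ W
  refine ⟨⟨rk W, fun U => peo W U⟩, ?_, ?_⟩
  · intro U u y hy
    rw [Wld.mem_N] at hy
    exact hy.2.2.2 u hy.2.2.1 (Or.inl rfl)
  · intro C M U α hM hU hc hα
    exact pr W hM hU hc hα

end Pool.Agent.DTR
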