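import Pool.Agent.DTR.Stmts2

/-!
# MP_25e1c1_co, part 2: module HYG
-/

set_option autoImplicit false

namespace Pool.Agent.DTR

open Finset

/-- Module HYG. -/
theorem dtr_hyg (h1 : S_WLK) (h2 : S_LEV) : S_HYG := by
  intro V _ _ w k hk G hX M hC α β hα hβ
  have hM : ∀ E ∈ M, 2 ≤ E.card := by
    intro E hE
    obtain ⟨x, hx, y, hy, hxy⟩ := hα E hE
    have hne : x ≠ y := fun h => hxy (by rw [h])
    have h3 : ({x, y} : Finset V) ⊆ E := by
      intro z hz
      rcases Finset.mem_insert.1 hz with h | h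
      · rw [h]; exact hx
      · rw [Finset.mem_singleton.1 h]; exact hy
    calc 2 = ({x, y} : Finset V).card := (Finset.card_pair hne).symm
      _ ≤ E.card := Finset.card_le_card h3
  obtain ⟨τ, hτ⟩ := h2 V k G M hC hM (w + 1) univ k le_rfl hk (fun u _ => by
    rw [Finset.inter_univ]
    exact Nat.add_le_add_right (hX u) 1)
  have hst : ∀ γ : V → Fin k, Pr M γ → St M univ k γ := fun γ hγ =>
    ⟨hγ, fun v _ => (γ v).isLt, fun v hv => absurd (Finset.mem_univ v) hv⟩
  have hl : ∀ γ : V → Fin k, Pr M γ → Lk (Pr M) ((w + 1) * (Fintype.card V + 1)) γ τ := by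
    intro γ hγ
    have h3 := hτ γ (hst γ hγ)
    have h4 : (fun v => if v ∈ (univ : Finset V) then τ v else γ v) = τ := by
      funext v
      rw [if_pos (Finset.mem_univ v)]
    rwa [h4] at h3
  have hw := h1 V (Fin k) (Pr M) (Pr M)
  have hβ' := (hw ((w + 1) * (Fintype.card V + 1)) 0 β τ τ).2.2.2.1 (hl β hβ)
  have h5 := (hw ((w + 1) * (Fintype.card V + 1)) ((w + 1) * (Fintype.card V + 1)) α τ β).2.2.1
    (hl α hα) hβ'
  rwa [← two_mul] at h5

end Pool.Agent.DTR
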