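import Pool.Agent.DTR.Stmts

/-!
# The module HYP: any two colourings are linked
-/

set_option autoImplicit false

namespace Pool.Agent.DTR

open Finset

theorem dtr_hyp (h1 : S_WLK) (h2 : S_HG) (h3 : S_SWE) (h4 : S_COR) : S_HYP := by
  intro V _ _ w k hk W hX M hC α β hα hβ
  have hsub : ∀ E ∈ M, E ⊆ (univ : Finset V) := fun E _ => subset_univ E
  obtain ⟨σ, hσ1, hσ2, hσ3⟩ := h4 V w k hk W hX M univ hC hsub α hα
  obtain ⟨ρ, hρ1, hρ2, hρ3⟩ := h4 V w k hk W hX M univ hC hsub β hβ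
  have hcs : w + 1 < k := by omega
  obtain ⟨r, hr⟩ := (h2 V W).1
  have h2c : ∀ E ∈ M, 2 ≤ E.card := by
    intro E hE
    obtain ⟨x, hx, y, hy, hxy⟩ := hα E hE
    exact Finset.one_lt_card.2 ⟨x, hx, y, hy, fun h => hxy (by rw [h])⟩
  have hspare : ∀ τ : V → Fin k, (∀ v, (τ v).val ≤ w) → ∀ v, τ v ≠ (⟨w + 1, hcs⟩ : Fin k) := by
    intro τ hτ v h
    have h5 := hτ v
    rw [h] at h5
    simp at h5
  have h5 := h3 V (Fin k) (W.N univ) r (hr univ) σ ρ ⟨w + 1, hcs⟩ hσ2 hρ2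
    (hspare σ hσ1) (hspare ρ hρ1)
  have h6 : ∀ δ : V → Fin k, PQ (W.N univ) δ → Pr M δ := fun δ hδ =>
    (h2 V W).2.2 (Fin k) M univ δ hC hsub h2c hδ
  have h7 : Lk (Pr M) (4 * Fintype.card V) σ ρ :=
    (h1 V (Fin k) (PQ (W.N univ)) (Pr M) (4 * Fintype.card V) (4 * Fintype.card V) σ ρ ρ).2.2.2.2.1
      h6 le_rfl h5
  have h8 := (h1 V (Fin k) (Pr M) (Pr M) _ 0 β ρ ρ).2.2.2.1 hρ3
  have h9 := (h1 V (Fin k) (Pr M) (Pr M) _ _ α σ ρ).2.2.1 hσ3 h7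
  have h10 := (h1 V (Fin k) (Pr M) (Pr M) _ _ α ρ β).2.2.1 h9 h8
  refine (h1 V (Fin k) (Pr M) (Pr M) _ (22 * Fintype.card V) α β β).2.2.2.2.1
    (fun _ h => h) ?_ h10
  rw [Finset.card_univ]
  omega

end Pool.Agent.DTR
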