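import Pool.Agent.DTR.Stmts2

/-!
# MP_25e1c1_co, part 2: LEV, the induction over the levels
-/

set_option autoImplicit false

namespace Pool.Agent.DTR

open Finset

namespace LEVX

/-- recolouring a part of `J` keeps the colouring in `Pr M` -/
theorem pr_aux {V : Type} [DecidableEq V] {k : ℕ} (M : Set (Finset V)) (U J : Finset V) (m : ℕ)
    (c0 : Fin k) (hc0 : c0.val + 1 = m) (hJE : ∀ E ∈ M, ¬ E ⊆ J)
    (σ : V → Fin k) (hσ : St M U m σ) (hne : ∀ v ∈ U, σ v ≠ c0) (J' : Finset V) (hJ' : J' ⊆ J) :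
    Pr M fun v => if v ∈ J' then c0 else σ v := by
  intro E hE
  by_contra hcon
  push Not at hcon
  have hne' : ∀ v, σ v ≠ c0 := by
    intro v h
    by_cases hv : v ∈ U
    · exact hne v hv h
    · have h1 := hσ.2.2 v hv
      rw [h] at h1
      omega
  by_cases h0 : ∃ x ∈ E, x ∈ J'
  · obtain ⟨x, hx, hxJ⟩ := h0
    apply hJE E hE
    intro y hy
    by_contra hyJ
    have h1 : y ∉ J' := fun h => hyJ (hJ' h)
    have h2 := hcon x hx y hy
    simp only [hxJ, h1, if_true, if_false] at h2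
    exact hne' y h2.symm
  · push Not at h0
    obtain ⟨x, hx, y, hy, hxy⟩ := hσ.1 E hE
    apply hxy
    have h2 := hcon x hx y hy
    simpa only [h0 x hx, h0 y hy, if_false] using h2

end LEVX

theorem dtr_lev (h1 : S_WLK) (h2 : S_BAT) (h3 : S_ELB) (h4 : S_MIS) : S_LEV := by
  intro V _ _ k G M hM hE q
  induction q with
  | zero =>
    intro U m hmk hm hU
    have hU0 : U = ∅ := by
      by_contra h
      obtain ⟨u, hu⟩ := Finset.nonempty_iff_ne_empty.2 h
      have := hU u hu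
      omega
    have hk : 0 < k := by omega
    refine ⟨fun _ => ⟨0, hk⟩, fun σ hσ => ?_⟩
    subst hU0
    have e1 : (fun v => if v ∈ (∅ : Finset V) then (⟨0, hk⟩ : Fin k) else σ v) = σ := by
      funext v
      simp
    rw [e1]
    exact (h1 V (Fin k) (Pr M) (Pr M) _ 0 σ σ σ).1 hσ.1
  | succ q ih =>
    intro U m hmk hm hU
    obtain ⟨J, hJU, hJd, hJE⟩ := h4 V G M hM hE U
    have hm1 : m - 1 < k := by omega
    have hU' : ∀ u ∈ U \ J, (G.X u ∩ (U \ J)).card + 1 ≤ q := by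
      intro u hu
      obtain ⟨huU, huJ⟩ := mem_sdiff.1 hu
      obtain ⟨z, hz, hzX⟩ := hJd u huU huJ
      have h5 := hU u huU
      have h6 : (G.X u ∩ (U \ J)).card < (G.X u ∩ U).card := by
        apply card_lt_card
        rw [ssubset_iff_of_subset]
        · refine ⟨z, mem_inter.2 ⟨hzX, hJU hz⟩, fun h => ?_⟩
          exact (mem_sdiff.1 (mem_inter.1 h).2).2 hz
        · intro w hw
          exact mem_inter.2 ⟨(mem_inter.1 hw).1, (mem_sdiff.1 (mem_inter.1 hw).2).1⟩
      omega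
    obtain ⟨τ', hτ'⟩ := ih (U \ J) (m - 1) (by omega) (by omega) hU'
    refine ⟨fun v => if v ∈ J then ⟨m - 1, hm1⟩ else τ' v, fun σ hσ => ?_⟩
    obtain ⟨σ1, hs1, hs2, hs3⟩ := h3 V k G M hM U m hmk
      (fun u hu => by have := hU u hu; omega) U (Subset.refl U) (fun v _ u hu _ => hu)
      ⟨m - 1, hm1⟩ σ hσ
    have hSt1 : St M U m σ1 :=
      ((h1 V (Fin k) (St M U m) (St M U m) U.card 0 σ σ1 σ).2.1 hs3).2
    have hpr := LEVX.pr_aux M U J m ⟨m - 1, hm1⟩ (by simp only; omega) hJE σ1 hSt1 hs2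
    have hb := h2 V (Fin k) (Pr M) σ1 J ⟨m - 1, hm1⟩ hpr
    have hSt2 : St M (U \ J) (m - 1) fun v => if v ∈ J then (⟨m - 1, hm1⟩ : Fin k) else σ1 v := by
      refine ⟨hpr J (Subset.refl J), ?_, ?_⟩
      · intro v hv
        obtain ⟨hvU, hvJ⟩ := mem_sdiff.1 hv
        simp only [hvJ, if_false]
        have h5 := hSt1.2.1 v hvU
        have h6 := hs2 v hvU
        have h7 : (σ1 v).val ≠ m - 1 := fun h => h6 (Fin.ext h)
        omega
      · intro v hv
        by_cases hvJ : v ∈ J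
        · simp only [hvJ, if_true]
          exact le_refl _
        · simp only [hvJ, if_false]
          have hvU : v ∉ U := fun h => hv (mem_sdiff.2 ⟨h, hvJ⟩)
          have h5 := hSt1.2.2 v hvU
          omega
    have hl := hτ' _ hSt2
    have hl1 : Lk (Pr M) U.card σ σ1 :=
      (h1 V (Fin k) (St M U m) (Pr M) U.card U.card σ σ1 σ).2.2.2.2.1 (fun δ hδ => hδ.1) le_rfl hs3
    have hl2 := (h1 V (Fin k) (Pr M) (Pr M) U.card 1 σ σ1 _).2.2.1 hl1 hb
    have hl3 := (h1 V (Fin k) (Pr M) (Pr M) (U.card + 1) (q * (Fintype.card V + 1)) σ _ _).2.2.1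
      hl2 hl
    have e1 : (fun v => if v ∈ U \ J then τ' v else
        (if v ∈ J then (⟨m - 1, hm1⟩ : Fin k) else σ1 v)) =
        fun v => if v ∈ U then (if v ∈ J then (⟨m - 1, hm1⟩ : Fin k) else τ' v) else σ v := by
      funext v
      by_cases hvU : v ∈ U
      · by_cases hvJ : v ∈ J
        · simp [hvU, hvJ]
        · simp [hvU, hvJ]
      · have hvJ : v ∉ J := fun h => hvU (hJU h)
        simp [hvU, hvJ, hs1 v hvU]
    rw [e1] at hl3
    refine (h1 V (Fin k) (Pr M) (Pr M) _ ((q + 1) * (Fintype.card V + 1)) σ _ σ).2.2.2.2.1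
      (fun δ hδ => hδ) ?_ hl3
    have h8 : U.card ≤ Fintype.card V := card_le_univ U
    have h9 : (q + 1) * (Fintype.card V + 1) = q * (Fintype.card V + 1) + (Fintype.card V + 1) := by
      ring
    rw [h9]
    omega

end Pool.Agent.DTR
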