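import Pool.Agent.DTR.Stmts

/-!
# MP_25e1c1_co, module LIF: recolourings lift
-/

set_option autoImplicit false

namespace Pool.Agent.DTR

open Finset

namespace LIFX

variable {V C : Type} [DecidableEq V]

theorem wk_end {P : (V → C) → Prop} {α β : V → C} {m : V → ℕ} (h : Wk P α β m) : P β := by
  cases h with
  | refl h => exact h
  | step _ _ _ h' => exact h'

theorem pr_lift {M : Set (Finset V)} {q : V → V} {γ : V → C}
    (h : Pr ((fun E => E.image q) '' M) γ) : Pr M (γ ∘ q) := by
  intro E hE
  obtain ⟨a, ha, b, hb, hab⟩ := h (E.image q) ⟨E, hE, rfl⟩
  obtain ⟨a', ha', rfl⟩ := Finset.mem_image.1 ha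
  obtain ⟨b', hb', rfl⟩ := Finset.mem_image.1 hb
  exact ⟨a', ha', b', hb', hab⟩

theorem qm_ne {x y : V} (hxy : x ≠ y) (u : V) : qm x y u ≠ x := by
  unfold qm
  split_ifs with h
  · exact hxy.symm
  · exact h

theorem qm_x {x y : V} : qm x y x = y := if_pos rfl

theorem qm_of_ne {x y u : V} (h : u ≠ x) : qm x y u = u := if_neg h

theorem upd_x {A : Type} {x y : V} (hxy : x ≠ y) (g : V → A) (a : A) :
    Function.update g x a ∘ qm x y = g ∘ qm x y := by
  funext u
  exact Function.update_of_ne (qm_ne hxy u) _ _

theorem upd_v {A : Type} {x y v : V} (hx : v ≠ x) (hy : v ≠ y) (g : V → A) (a : A) :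
    Function.update g v a ∘ qm x y = Function.update (g ∘ qm x y) v a := by
  funext u
  by_cases hu : u = v
  · subst hu
    rw [Function.update_self, Function.comp_apply, qm_of_ne hx, Function.update_self]
  · rw [Function.update_of_ne hu, Function.comp_apply, Function.comp_apply]
    refine Function.update_of_ne ?_ _ _
    unfold qm
    split_ifs with h
    · exact hy.symm
    · exact hu

theorem upd_y {A : Type} {x y : V} (g : V → A) (a : A) :
    Function.update g y a ∘ qm x y =
      Function.update (Function.update (g ∘ qm x y) y a) x a := by
  funext u
  by_cases hu : u = x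
  · subst hu
    rw [Function.update_self, Function.comp_apply, qm_x, Function.update_self]
  · rw [Function.update_of_ne hu, Function.comp_apply, qm_of_ne hu]
    by_cases hy : u = y
    · subst hy
      rw [Function.update_self, Function.update_self]
    · rw [Function.update_of_ne hy, Function.update_of_ne hy, Function.comp_apply, qm_of_ne hu]

theorem wk_lift {M : Set (Finset V)} {x y : V} (hxy : x ≠ y) {α β : V → C} {m : V → ℕ}
    (h : Wk (Pr ((fun E => E.image (qm x y)) '' M)) α β m) :
    Wk (Pr M) (α ∘ qm x y) (β ∘ qm x y) (m ∘ qm x y) := by
  induction h with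
  | refl h => exact Wk.refl _ (pr_lift h)
  | @step β m v c h h' ih =>
    have hβ := wk_end h
    by_cases hx : v = x
    · subst hx
      rw [upd_x hxy, upd_x hxy]
      exact ih
    · by_cases hy : v = y
      · subst hy
        have hmid : Pr M (Function.update (β ∘ qm x v) v c) := by
          intro E hE
          by_cases hc : c = β v
          · have h1 : Function.update (β ∘ qm x v) v c = β ∘ qm x v := by
              rw [hc]
              funext u
              by_cases hu : u = v
              · subst hu
                rw [Function.update_self, Function.comp_apply, qm_of_ne hx]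
              · rw [Function.update_of_ne hu]
            rw [h1]
            exact pr_lift hβ E hE
          · by_cases hxE : x ∈ E
            · by_cases hvE : v ∈ E
              · refine ⟨x, hxE, v, hvE, ?_⟩
                rw [Function.update_self, Function.update_of_ne hxy, Function.comp_apply, qm_x]
                exact fun h => hc h.symm
              · obtain ⟨a, ha, b, hb, hab⟩ := pr_lift hβ E hE
                refine ⟨a, ha, b, hb, ?_⟩
                have hav : a ≠ v := fun h => hvE (h ▸ ha)
                have hbv : b ≠ v := fun h => hvE (h ▸ hb)
                rw [Function.update_of_ne hav, Function.update_of_ne hbv]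
                exact hab
            · obtain ⟨a, ha, b, hb, hab⟩ := pr_lift h' E hE
              refine ⟨a, ha, b, hb, ?_⟩
              have hax : a ≠ x := fun h => hxE (h ▸ ha)
              have hbx : b ≠ x := fun h => hxE (h ▸ hb)
              rw [upd_y, Function.update_of_ne hax, Function.update_of_ne hbx] at hab
              exact hab
        have s1 := Wk.step v c ih hmid
        have h2 : Pr M (Function.update (Function.update (β ∘ qm x v) v c) x c) := by
          rw [← upd_y]
          exact pr_lift h'
        have s2 := Wk.step x c s1 h2
        rw [← upd_y] at s2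
        have h3 : Function.update (Function.update (m ∘ qm x v) v ((m ∘ qm x v) v + 1)) x
            (Function.update (m ∘ qm x v) v ((m ∘ qm x v) v + 1) x + 1) =
            Function.update m v (m v + 1) ∘ qm x v := by
          rw [upd_y, Function.update_of_ne hxy, Function.comp_apply, Function.comp_apply,
            qm_of_ne hx, qm_x]
        rw [h3] at s2
        exact s2
      · have h1 : Pr M (Function.update (β ∘ qm x y) v c) := by
          rw [← upd_v hx hy]
          exact pr_lift h'
        have s1 := Wk.step v c ih h1
        rw [← upd_v hx hy] at s1
        have h3 : Function.update (m ∘ qm x y) v ((m ∘ qm x y) v + 1) =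
            Function.update m v (m v + 1) ∘ qm x y := by
          rw [upd_v hx hy, Function.comp_apply, qm_of_ne hx]
        rw [h3] at s1
        exact s1

end LIFX

theorem dtr_lif : S_LIF := by
  intro V C _ M x y hxy N α β h
  obtain ⟨m, hm, hN⟩ := h
  exact ⟨m ∘ qm x y, LIFX.wk_lift hxy hm, fun v => hN _⟩

end Pool.Agent.DTR
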