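import Pool.Agent.DTR.Stmts

/-!
# MP_25e1c1_co: the main theorem
-/

set_option autoImplicit false

namespace Pool.Agent.DTR

open Finset

namespace MANX

theorem two_le {V : Type} {D : V → V → Prop} (hD : ∀ v, ¬ D v v)
    {E : Finset V} (hE : E ∈ MD D) : 2 ≤ E.card := by
  obtain ⟨hne, hst⟩ := hE
  by_contra hlt
  have h1 : E.card = 1 := by
    have := hne.card_pos
    omega
  obtain ⟨a, rfl⟩ := Finset.card_eq_one.1 h1
  have ha : a ∈ ({a} : Finset V) := Finset.mem_singleton_self a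
  obtain ⟨c, -, hc⟩ := Relation.TransGen.tail'_iff.1 (hst a ha a ha)
  have h2 : c = a := Finset.mem_singleton.1 hc.1
  rw [h2] at hc
  exact hD a hc.2.2

end MANX

theorem dtr_man (h1 : S_HYP) (h2 : S_DIC) (h3 : S_DIS) (h4 : S_ARB) (h5 : S_HG) (h6 : S_GRD) :
    S_MAN := by
  intro V T _ _ _ D hD A w k hwk hup hcard
  obtain ⟨W, hW, hC⟩ := h4 V T D A w hup hcard
  have e : (Dic D : (V → Fin k) → Prop) = Pr (MD D) :=
    funext fun α => propext (h2 V (Fin k) D α)
  have key0 : ∀ α β : V → Fin k, Dic D α → Dic D β →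
      Lk (Dic D) (22 * Fintype.card V) α β := by
    intro α β hα hβ
    have h := h1 V w k hwk W hW (MD D) hC α β ((h2 V (Fin k) D α).1 hα)
      ((h2 V (Fin k) D β).1 hβ)
    rw [e]
    exact h
  have key : ∀ α β : {α : V → Fin k // Dic D α},
      Lk (Dic D) (22 * Fintype.card V) α.1 β.1 := fun α β => key0 α.1 β.1 α.2 β.2
  have hdis := fun α β => h3 V D k (22 * Fintype.card V) α β (key α β)
  obtain ⟨⟨r, hr⟩, hNX, hPr⟩ := h5 V W
  have hne : Nonempty {α : V → Fin k // Dic D α} := by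
    obtain ⟨σ, hσ, -⟩ := h6 V (W.N univ) r w k (hr univ).rk
      (fun u => (Finset.card_le_card (hNX univ u)).trans (hW u)) (by omega)
    refine ⟨⟨σ, ?_⟩⟩
    rw [e]
    exact hPr (Fin k) (MD D) univ σ hC (fun E _ => Finset.subset_univ E)
      (fun E hE => MANX.two_le hD hE) hσ
  refine ⟨⟨fun α β => (hdis α β).1⟩, fun α β => ?_⟩
  refine (hdis α β).2.trans (le_of_eq ?_)
  ring

end Pool.Agent.DTR
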