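import Pool.Agent.DTR.Stmts2
import Pool.Agent.DTR.MAN

/-!
# MP_25e1c1_co, part 2: the main theorem for arbitrary guards
-/

set_option autoImplicit false

namespace Pool.Agent.DTR

open Finset

theorem dtr_mag (h1 : S_HYG) (h2 : S_DIC) (h3 : S_DIS) (h4 : S_ARG) (h5 : S_EXG) : S_MAG := by
  intro V T _ _ _ D hD A w k hwk hcard
  obtain ⟨G, hG, hC⟩ := h4 V T D A w hcard
  have e : (Dic D : (V → Fin k) → Prop) = Pr (MD D) :=
    funext fun α => propext (h2 V (Fin k) D α)
  have key0 : ∀ α β : V → Fin k, Dic D α → Dic D β →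
      Lk (Dic D) (2 * ((w + 1) * (Fintype.card V + 1))) α β := by
    intro α β hα hβ
    have h := h1 V w k hwk G hG (MD D) hC α β ((h2 V (Fin k) D α).1 hα)
      ((h2 V (Fin k) D β).1 hβ)
    rw [e]
    exact h
  have key : ∀ α β : {α : V → Fin k // Dic D α},
      Lk (Dic D) (2 * ((w + 1) * (Fintype.card V + 1))) α.1 β.1 :=
    fun α β => key0 α.1 β.1 α.2 β.2
  have hdis := fun α β => h3 V D k (2 * ((w + 1) * (Fintype.card V + 1))) α β (key α β)
  have hne : Nonempty {α : V → Fin k // Dic D α} := by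
    obtain ⟨τ, hτ⟩ := h5 V k G (MD D) hC (fun E hE => MANX.two_le hD hE) w hG (by omega)
    refine ⟨⟨τ, ?_⟩⟩
    rw [e]
    exact hτ
  refine ⟨⟨fun α β => (hdis α β).1⟩, fun α β => ?_⟩
  refine (hdis α β).2.trans (le_of_eq ?_)
  ring

end Pool.Agent.DTR
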