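import Pool.Agent.DTR.Stmts2

/-!
# MP_25e1c1_co, part 2: MIS, the greedy choice
-/

set_option autoImplicit false

namespace Pool.Agent.DTR

open Finset

namespace MISX

variable {V : Type} [Fintype V] [DecidableEq V]

/-- a rank function -/
theorem exists_rank (G : GW V) :
    ∃ r : V → ℕ, Function.Injective r ∧ ∀ u v, G.anc u v → r u < r v := by
  classical
  let a : V → ℕ := fun v => (univ.filter fun u => G.anc u v).card
  have ha : ∀ u v, G.anc u v → a u + 1 ≤ a v := by
    intro u v h
    apply card_lt_card
    rw [ssubset_iff_of_subset]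
    · refine ⟨u, mem_filter.2 ⟨mem_univ _, h⟩, fun h' => ?_⟩
      exact G.irrefl u (mem_filter.1 h').2
    · intro w hw
      exact mem_filter.2 ⟨mem_univ _, G.trans _ _ _ (mem_filter.1 hw).2 h⟩
  let e := Fintype.equivFin V
  refine ⟨fun v => a v * Fintype.card V + (e v).val, ?_, ?_⟩
  · intro u v h
    have h1 : (a u * Fintype.card V + (e u).val) % Fintype.card V =
        (a v * Fintype.card V + (e v).val) % Fintype.card V := congrArg (· % Fintype.card V) h
    rw [Nat.mul_comm (a u), Nat.mul_comm (a v), Nat.mul_add_mod, Nat.mul_add_mod,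
      Nat.mod_eq_of_lt (e u).isLt, Nat.mod_eq_of_lt (e v).isLt] at h1
    exact e.injective (Fin.ext h1)
  · intro u v h
    calc a u * Fintype.card V + (e u).val < a u * Fintype.card V + Fintype.card V :=
          Nat.add_lt_add_left (e u).isLt _
      _ = (a u + 1) * Fintype.card V := by ring
      _ ≤ a v * Fintype.card V := Nat.mul_le_mul_right _ (ha u v h)
      _ ≤ _ := Nat.le_add_right _ _

omit [Fintype V] in
/-- the greedy choice -/
theorem greedy (G : GW V) (U : Finset V) (r : V → ℕ) (hr : Function.Injective r) (n : ℕ) :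
    ∃ J ⊆ U, (∀ u ∈ J, r u < n) ∧ ∀ u ∈ U, r u < n → (u ∈ J ↔ ∀ z ∈ J, z ∈ G.X u → ¬ r z < r u) := by
  classical
  induction n with
  | zero =>
    exact ⟨∅, empty_subset _, fun u hu => absurd hu (notMem_empty u), fun u _ hu => absurd hu (Nat.not_lt_zero _)⟩
  | succ n ih =>
    obtain ⟨J, hJU, hJn, hJ⟩ := ih
    by_cases h0 : ∃ u0 ∈ U, r u0 = n
    · obtain ⟨u0, hu0, hr0⟩ := h0
      have hne : ∀ u, r u < n + 1 → u ≠ u0 → r u < n := by
        intro u hu hne
        have : r u ≠ n := fun h => hne (hr (h.trans hr0.symm))
        omega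
      by_cases h1 : ∃ z ∈ J, z ∈ G.X u0
      · obtain ⟨z, hz, hzX⟩ := h1
        refine ⟨J, hJU, fun u hu => (hJn u hu).trans (Nat.lt_succ_self _), ?_⟩
        intro u hu hun
        by_cases h2 : u = u0
        · subst h2
          constructor
          · intro h3
            exact absurd (hJn u h3) (by omega)
          · intro h3
            exact absurd (h3 z hz hzX) (not_not.2 (by rw [hr0]; exact hJn z hz))
        · exact hJ u hu (hne u hun h2)
      · refine ⟨insert u0 J, ?_, ?_, ?_⟩
        · exact insert_subset hu0 hJU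
        · intro u hu
          rcases mem_insert.1 hu with rfl | hu
          · omega
          · exact (hJn u hu).trans (Nat.lt_succ_self _)
        · intro u hu hun
          by_cases h2 : u = u0
          · subst h2
            constructor
            · intro _ z hz hzX hlt
              rcases mem_insert.1 hz with rfl | hz
              · exact lt_irrefl _ hlt
              · exact h1 ⟨z, hz, hzX⟩
            · intro _
              exact mem_insert_self _ _
          · have h3 := hJ u hu (hne u hun h2)
            have h4 : u ∈ insert u0 J ↔ u ∈ J := by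
              rw [mem_insert]
              exact ⟨fun h => h.resolve_left h2, Or.inr⟩
            rw [h4, h3]
            constructor
            · intro h5 z hz hzX hlt
              rcases mem_insert.1 hz with rfl | hz
              · have := hne u hun h2
                omega
              · exact h5 z hz hzX hlt
            · intro h5 z hz
              exact h5 z (mem_insert_of_mem hz)
    · refine ⟨J, hJU, fun u hu => (hJn u hu).trans (Nat.lt_succ_self _), ?_⟩
      intro u hu hun
      apply hJ u hu
      have : r u ≠ n := fun h => h0 ⟨u, hu, h⟩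
      omega

end MISX

theorem dtr_mis : S_MIS := by
  classical
  intro V _ _ G M hM hE U
  obtain ⟨r, hr, hra⟩ := MISX.exists_rank G
  obtain ⟨J, hJU, -, hJ⟩ := MISX.greedy G U r hr (univ.sup r + 1)
  have hb : ∀ u, r u < univ.sup r + 1 := fun u => Nat.lt_succ_of_le (le_sup (f := r) (mem_univ u))
  refine ⟨J, hJU, ?_, ?_⟩
  · intro u hu huJ
    have h1 := mt (hJ u hu (hb u)).2 huJ
    push Not at h1
    obtain ⟨z, hz, hzX, -⟩ := h1
    exact ⟨z, hz, hzX⟩
  · intro E hEM hEJ
    have hc := hE E hEM
    have hne : E.Nonempty := card_pos.1 (by omega)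
    obtain ⟨u, huE, hmax⟩ := exists_max_image E r hne
    obtain ⟨v, hvE, hvu⟩ := exists_mem_ne (by omega : 1 < E.card) u
    have hvlt : r v < r u := lt_of_le_of_ne (hmax v hvE) fun h => hvu (hr h)
    obtain ⟨x, hxE, hxX⟩ := hM E hEM u ⟨u, huE, Or.inl rfl⟩ ⟨v, hvE, by
      rintro (h | h)
      · exact hvu h
      · exact absurd (hra u v h) (by omega)⟩
    have hxu : x ≠ u := (G.out u x hxX).1
    have hxlt : r x < r u := lt_of_le_of_ne (hmax x hxE) fun h => hxu (hr h)
    exact (hJ u (hJU (hEJ huE)) (hb u)).1 (hEJ huE) x (hEJ hxE) hxX hxlt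

end Pool.Agent.DTR
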