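import Pool.Agent.DTR.Stmts

/-!
# Module MRG: identification of a vertex with a home guard
-/

set_option autoImplicit false

namespace Pool.Agent.DTR

open Finset

namespace MRGX

variable {V : Type} [DecidableEq V] {W : Wld V} {x y : V} {h : W.anc y x}

theorem X_eq (u : V) : (W.mrg x y h).X u =
    if x ∈ W.X u ∧ y ∉ W.X u then insert y ((W.X u).erase x) else W.X u := rfl

theorem mem1 {u z : V} (hz : z ∈ W.X u) (hx : z ≠ x) : z ∈ (W.mrg x y h).X u := by
  rw [X_eq]
  split_ifs with h1
  · exact Finset.mem_insert_of_mem (Finset.mem_erase.2 ⟨hx, hz⟩)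
  · exact hz

theorem mem2 {u : V} (hz : x ∈ W.X u) : y ∈ (W.mrg x y h).X u := by
  rw [X_eq]
  split_ifs with h1
  · exact Finset.mem_insert_self _ _
  · by_contra h2
    exact h1 ⟨hz, h2⟩

theorem mem3 {u : V} (hy : y ∈ W.X u) : (W.mrg x y h).X u = W.X u := by
  rw [X_eq, if_neg]
  rintro ⟨_, h2⟩
  exact h2 hy

theorem hg1 {u z : V} (hg : W.Hg u z) (hx : z ≠ x) : (W.mrg x y h).Hg u z :=
  ⟨hg.1, fun t ht hi => mem1 (hg.2 t ht hi) hx⟩

theorem card_le (u : V) : ((W.mrg x y h).X u).card ≤ (W.X u).card := by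
  rw [X_eq]
  split_ifs with h1
  · refine (Finset.card_insert_le _ _).trans ?_
    rw [Finset.card_erase_of_mem h1.1]
    have : 0 < (W.X u).card := Finset.card_pos.2 ⟨x, h1.1⟩
    omega
  · exact le_rfl

theorem in_trans {t a b : V} (h1 : W.In t a) (h2 : W.anc a b) : W.In t b := by
  rcases h1 with rfl | h1
  · exact Or.inr h2
  · exact Or.inr (W.trans _ _ _ h1 h2)

theorem q_x : qm x y x = y := by
  unfold qm
  rw [if_pos rfl]

theorem q_ne {v : V} (hv : v ≠ x) : qm x y v = v := by
  unfold qm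
  rw [if_neg hv]

theorem cmp (hg : W.Hg x y) (M : Set (Finset V)) (hM : W.Cmp M) :
    (W.mrg x y h).Cmp ((fun E => E.image (qm x y)) '' M) := by
  rintro _ ⟨E, hE, rfl⟩ u ⟨a, ha, hau⟩ ⟨b, hb, hbu⟩
  change W.In u a at hau
  change ¬ W.In u b at hbu
  have hin : ∀ v ∈ E, qm x y v ∈ E.image (qm x y) := fun v hv =>
    Finset.mem_image_of_mem _ hv
  obtain ⟨a', ha', rfl⟩ := Finset.mem_image.1 ha
  obtain ⟨b', hb', rfl⟩ := Finset.mem_image.1 hb
  by_cases h1 : ∃ v ∈ E, W.In u v
  · by_cases h2 : ∃ v ∈ E, ¬ W.In u v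
    · obtain ⟨z, hz, hzX⟩ := hM E hE u h1 h2
      by_cases hzx : z = x
      · subst hzx
        exact ⟨y, by simpa only [q_x] using hin _ hz, mem2 hzX⟩
      · exact ⟨z, by simpa only [q_ne hzx] using hin _ hz, mem1 hzX hzx⟩
    · push Not at h2
      have hb2 : b' = x := by
        by_contra hbx
        rw [q_ne hbx] at hbu
        exact hbu (h2 b' hb')
      subst hb2
      rw [q_x] at hbu
      have hux : W.In u b' := h2 _ hb'
      have hyu : W.anc y u := by
        rcases hux with rfl | hux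
        · exact h
        · rcases W.chain y u b' h hux with rfl | h3 | h3
          · exact absurd (Or.inl rfl) hbu
          · exact h3
          · exact absurd (Or.inr h3) hbu
      have hy : y ∈ W.X u := hg.2 u hyu hux
      refine ⟨y, by simpa only [q_x] using hin _ hb', ?_⟩
      rw [mem3 hy]
      exact hy
  · push Not at h1
    exfalso
    by_cases hax : a' = x
    · subst hax
      rw [q_x] at hau
      exact h1 _ ha' (in_trans hau h)
    · rw [q_ne hax] at hau
      exact h1 _ ha' hau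

theorem adj (hg : W.Hg x y) {u z : V} (hne : (u, z) ≠ (x, y)) (hz : W.Hg u z) :
    (W.mrg x y h).Hg (qm x y u) (qm x y z) ∨ (W.mrg x y h).Hg (qm x y z) (qm x y u) := by
  have hyx : y ≠ x := by
    rintro rfl
    exact W.irrefl _ h
  by_cases hzx : z = x
  · subst hzx
    have hux : u ≠ z := by
      rintro rfl
      exact W.irrefl _ hz.1
    left
    rw [q_x, q_ne hux]
    refine ⟨W.trans _ _ _ h hz.1, fun t ht hi => ?_⟩
    have hc : W.In t z ∨ W.anc z t := by
      rcases hi with rfl | hi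
      · exact Or.inr hz.1
      · rcases W.chain t z u hi hz.1 with h3 | h3 | h3
        · exact Or.inl (Or.inl h3.symm)
        · exact Or.inl (Or.inr h3)
        · exact Or.inr h3
    rcases hc with hc | hc
    · have := hg.2 t ht hc
      rw [mem3 this]
      exact this
    · exact mem2 (hz.2 t hc hi)
  · by_cases hux : u = x
    · subst hux
      have hzy : z ≠ y := by
        rintro rfl
        exact hne rfl
      rw [q_x, q_ne hzx]
      rcases W.chain z y u hz.1 h with h3 | h3 | h3
      · exact absurd h3 hzy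
      · left
        exact hg1 ⟨h3, fun t ht hi => hz.2 t ht (in_trans hi h)⟩ hzx
      · right
        exact hg1 ⟨h3, fun t ht hi => hg.2 t ht (in_trans hi hz.1)⟩ hyx
    · left
      rw [q_ne hux, q_ne hzx]
      exact hg1 hz hzx

theorem tri {f : V} (hfx : f ≠ x) (h1 : W.Hg f x ∨ W.Hg x f)
    (h2 : W.Hg f y ∨ W.Hg y f) : (W.mrg x y h).Hg f x ∨ (W.mrg x y h).Hg x f := by
  rcases h1 with h1 | h1
  · left
    have hyf : W.anc y f := W.trans _ _ _ h h1.1
    rcases h2 with h2 | h2
    · refine ⟨h1.1, fun t ht hi => ?_⟩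
      have hy : y ∈ W.X t := h2.2 t (W.trans _ _ _ h ht) hi
      rw [mem3 hy]
      exact h1.2 t ht hi
    · exact absurd (W.trans _ _ _ hyf h2.1) (W.irrefl _)
  · right
    exact hg1 h1 hfx

end MRGX

open MRGX in
theorem dtr_mrg : S_MRG := by
  intro V _ _ W x y h hg
  have hyx : y ≠ x := by
    rintro rfl
    exact W.irrefl _ h
  exact ⟨card_le, fun M hM => cmp hg M hM, fun u z hne hz => adj hg hne hz, hg1 hg hyx,
    fun f hfx _ h1 h2 => tri hfx h1 h2⟩

end Pool.Agent.DTR
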