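import Pool.Agent.DTR.Stmts

/-!
# MP_25e1c1_co: module SWE

Two proper colourings of a chordal graph which do not use the colour `cs` are linked.
-/

set_option autoImplicit false

namespace Pool.Agent.DTR

open Finset

namespace SWEX

theorem main (h1 : S_WLK) (h2 : S_SWP) (V C : Type) [Fintype V] [DecidableEq V] [DecidableEq C]
    (N : V → Finset V) (r : V → ℕ) (hN : Peo N r) (ρ : V → C) (cs : C) (hρ : PQ N ρ)
    (hρc : ∀ v, ρ v ≠ cs) : ∀ (j : ℕ) (F : Finset V), (Finset.univ \ F).card = j →
    (∀ t ∈ F, ∀ u, u ∉ F → r t ≤ r u) → ∀ σ : V → C, PQ N σ → (∀ v, σ v ≠ cs) →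
    (∀ t ∈ F, σ t = ρ t) → Lk (PQ N) (4 * j) σ ρ := by
  intro j
  induction j with
  | zero =>
    intro F hF _ σ hσ _ hσρ
    have hall : ∀ v, v ∈ F := by
      intro v
      by_contra hv
      have h3 : v ∈ Finset.univ \ F := Finset.mem_sdiff.2 ⟨Finset.mem_univ v, hv⟩
      rw [Finset.card_eq_zero.1 hF] at h3
      exact Finset.notMem_empty v h3
    have h4 : σ = ρ := funext fun v => hσρ v (hall v)
    rw [h4]
    exact (h1 V C (PQ N) (PQ N) (4 * 0) 0 ρ ρ ρ).1 hρ
  | succ j ih =>
    intro F hF hrk σ hσ hσc hσρ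
    have hne : (Finset.univ \ F).Nonempty := by
      rw [← Finset.card_pos, hF]
      exact Nat.succ_pos j
    obtain ⟨x, hx, hmin⟩ := Finset.exists_min_image (Finset.univ \ F) r hne
    have hxF : x ∉ F := (Finset.mem_sdiff.1 hx).2
    have hmin' : ∀ u, u ∉ F → r x ≤ r u := fun u hu =>
      hmin u (Finset.mem_sdiff.2 ⟨Finset.mem_univ u, hu⟩)
    have hcard : (Finset.univ \ insert x F).card = j := by
      have h3 : Finset.univ \ insert x F = (Finset.univ \ F).erase x := by
        ext v
        simp only [Finset.mem_sdiff, Finset.mem_univ, true_and, Finset.mem_insert,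
          Finset.mem_erase]
        tauto
      rw [h3, Finset.card_erase_of_mem hx, hF]
      rfl
    have hrk' : ∀ t ∈ insert x F, ∀ u, u ∉ insert x F → r t ≤ r u := by
      intro t ht u hu
      have hu' : u ∉ F := fun h => hu (Finset.mem_insert_of_mem h)
      rcases Finset.mem_insert.1 ht with rfl | ht
      · exact hmin' u hu'
      · exact hrk t ht u hu'
    by_cases hcol : σ x = ρ x
    · have h3 := ih (insert x F) hcard hrk' σ hσ hσc (by
        intro t ht
        rcases Finset.mem_insert.1 ht with rfl | ht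
        · exact hcol
        · exact hσρ t ht)
      exact (h1 V C (PQ N) (PQ N) (4 * j) (4 * (j + 1)) σ ρ ρ).2.2.2.2.1 (fun _ h => h)
        (by omega) h3
    · -- `N x ⊆ F`
      have hNx : ∀ t ∈ N x, t ∈ F := by
        intro t ht
        by_contra htF
        have h3 := hN.rk x t ht
        have h4 := hmin' t htF
        omega
      obtain ⟨σ0, ha, hb, hc, hd, he⟩ := h2 V C N r hN (PQ N) σ x (ρ x) cs hσ (fun _ h => h)
        hσc (hρc x) hcol (fun u _ t ht => hσ u t ht)
        (fun t ht => by rw [hσρ t (hNx t ht)]; exact hρ x t ht)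
        (fun u _ _ t ht _ => hσ x t ht)
      have h5 := ih (insert x F) hcard hrk' σ0 ha (by
        intro v
        rcases hd v with h | h | h
        · rw [h]; exact hσc v
        · rw [h]; exact hσc x
        · rw [h]; exact hρc x) (by
        intro t ht
        rcases Finset.mem_insert.1 ht with rfl | ht
        · exact hc
        · by_contra h6
          rw [← hσρ t ht] at h6
          have htx : t ≠ x := fun h => hxF (h ▸ ht)
          have h7 := he t htx h6
          have h8 := hrk t ht x hxF
          omega)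
      have h6 := (h1 V C (PQ N) (PQ N) 4 (4 * j) σ σ0 ρ).2.2.1 hb h5
      have h7 : 4 + 4 * j = 4 * (j + 1) := by ring
      rw [h7] at h6
      exact h6

end SWEX

theorem dtr_swe (h1 : S_WLK) (h2 : S_SWP) : S_SWE := by
  intro V C _ _ _ N r hN σ ρ cs hσ hρ hσc hρc
  have h3 := SWEX.main h1 h2 V C N r hN ρ cs hρ hρc (Fintype.card V) ∅
    (by rw [Finset.sdiff_empty, Finset.card_univ])
    (fun t ht => absurd ht (Finset.notMem_empty t)) σ hσ hσc
    (fun t ht => absurd ht (Finset.notMem_empty t))
  exact h3

end Pool.Agent.DTR
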