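import Pool.Agent.DTR.Stmts

/-!
# MP_25e1c1_co: module SWP, a Kempe change downwards
-/

set_option autoImplicit false

namespace Pool.Agent.DTR

open Finset

namespace SWPX

variable {V C : Type} [Fintype V] [DecidableEq V] [DecidableEq C]

/-- the downward Kempe component -/
inductive KK (N : V → Finset V) (σ : V → C) (x : V) (c c' : C) : V → Prop
  | base : KK N σ x c c' x
  | step (u s : V) (h : s ∈ N u) (hs : KK N σ x c c' s) (hu : σ u = c ∨ σ u = c') :
      KK N σ x c c' u

omit [Fintype V] [DecidableEq V] [DecidableEq C] in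
theorem KK.up {N : V → Finset V} {σ : V → C} {x : V} {c c' : C} {v : V} (h : KK N σ x c c' v)
    (hv : v ≠ x) : (∃ s ∈ N v, KK N σ x c c' s) ∧ (σ v = c ∨ σ v = c') := by
  cases h with
  | base => exact absurd rfl hv
  | step u s h hs hu => exact ⟨⟨s, h, hs⟩, hu⟩

omit [Fintype V] [DecidableEq V] [DecidableEq C] in
theorem KK.rk {N : V → Finset V} {σ : V → C} {x : V} {c c' : C} {r : V → ℕ}
    (hr : ∀ u, ∀ t ∈ N u, r t < r u) {v : V} (h : KK N σ x c c' v) : v = x ∨ r x < r v := by
  induction h with
  | base => exact Or.inl rfl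
  | step u s h hs hu ih =>
    right
    have h1 := hr u s h
    rcases ih with rfl | ih
    · exact h1
    · exact ih.trans h1

end SWPX

open SWPX in
theorem dtr_swp (h1 : S_WLK) (h2 : S_BAT) : S_SWP := by
  classical
  intro V C _ _ _ N r hN P σ x c' cs hP hPQ hcs hccs hxc hg hx hd
  obtain ⟨c, hc⟩ : ∃ c, c = σ x := ⟨_, rfl⟩
  have hcc : c ≠ c' := by
    rw [hc]
    exact hxc
  have hccs0 : c ≠ cs := by
    rw [hc]
    exact hcs x
  let K : V → Prop := KK N σ x c c'
  have hKx : K x := KK.base
  have hK1 : ∀ v, K v → v ≠ x → (∃ s ∈ N v, K s) ∧ (σ v = c ∨ σ v = c') := fun v hv h => KK.up hv h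
  have hK2 : ∀ v, K v → v = x ∨ r x < r v := fun v hv => KK.rk hN.rk hv
  have hK3 : ∀ t ∈ N x, ¬ K t := by
    intro t ht hKt
    have h3 := hN.rk x t ht
    rcases hK2 t hKt with h | h
    · rw [h] at h3
      exact lt_irrefl _ h3
    · exact lt_irrefl _ (h.trans h3)
  have hK4 : ∀ u t, K t → t ∈ N u → (σ u = c ∨ σ u = c') → K u := fun u t ht htu hu =>
    KK.step u t htu ht hu
  let A : Finset V := Finset.univ.filter fun v => K v ∧ σ v = c
  let B : Finset V := Finset.univ.filter fun v => K v ∧ σ v = c'
  have hA : ∀ v, v ∈ A ↔ K v ∧ σ v = c := fun v => by simp [A]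
  have hB : ∀ v, v ∈ B ↔ K v ∧ σ v = c' := fun v => by simp [B]
  have hxA : x ∈ A := (hA x).2 ⟨hKx, hc.symm⟩
  have hAind : ∀ u t, u ∈ A → t ∈ A → t ∈ N u → False := by
    intro u t hu ht htu
    rw [hA] at hu ht
    by_cases hux : u = x
    · rw [hux] at htu
      exact hK3 t htu ht.1
    · exact hg u hux t htu (by rw [ht.2, hu.2])
  have hBne : ∀ u ∈ B, u ≠ x := by
    intro u hu hux
    rw [hB] at hu
    rw [hux] at hu
    exact hcc (hc.trans hu.2)
  have hBind : ∀ u t, u ∈ B → t ∈ B → t ∈ N u → False := by
    intro u t hu ht htu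
    have hux := hBne u hu
    rw [hB] at hu ht
    exact hg u hux t htu (by rw [ht.2, hu.2])
  -- step 2
  have G2 : ∀ A' ⊆ A, x ∈ A' → PQ N fun v => if v ∈ A' then cs else σ v := by
    intro A' hA' hxA' u t htu
    show (if t ∈ A' then cs else σ t) ≠ if u ∈ A' then cs else σ u
    by_cases ht : t ∈ A' <;> by_cases hu : u ∈ A'
    · exact (hAind u t (hA' hu) (hA' ht) htu).elim
    · rw [if_pos ht, if_neg hu]
      exact (hcs u).symm
    · rw [if_neg ht, if_pos hu]
      exact hcs t
    · rw [if_neg ht, if_neg hu]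
      exact hg u (fun h => hu (h ▸ hxA')) t htu
  let β2 : V → C := fun v => if v ∈ A then cs else σ v
  have hβ2 : PQ N β2 := G2 A (Finset.Subset.refl A) hxA
  have G3 : ∀ B' ⊆ B, PQ N fun v => if v ∈ B' then c else β2 v := by
    intro B' hB' u t htu
    show (if t ∈ B' then c else β2 t) ≠ if u ∈ B' then c else β2 u
    by_cases ht : t ∈ B' <;> by_cases hu : u ∈ B'
    · exact (hBind u t (hB' hu) (hB' ht) htu).elim
    · rw [if_pos ht, if_neg hu]
      show c ≠ if u ∈ A then cs else σ u
      by_cases huA : u ∈ A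
      · rw [if_pos huA]
        exact hccs0
      · rw [if_neg huA]
        intro h
        exact huA ((hA u).2 ⟨hK4 u t ((hB t).1 (hB' ht)).1 htu (Or.inl h.symm), h.symm⟩)
    · rw [if_neg ht, if_pos hu]
      show (if t ∈ A then cs else σ t) ≠ c
      by_cases htA : t ∈ A
      · rw [if_pos htA]
        exact hccs0.symm
      · rw [if_neg htA]
        intro h
        have hKt : ¬ K t := fun hk => htA ((hA t).2 ⟨hk, h⟩)
        have hux := hBne u (hB' hu)
        have huB := (hB u).1 (hB' hu)
        obtain ⟨⟨s, hs, hKs⟩, -⟩ := hK1 u huB.1 hux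
        have hst : s ≠ t := fun h' => hKt (h' ▸ hKs)
        rcases hN.cl u s hs t htu hst with h' | h'
        · by_cases hsx : s = x
          · rw [hsx] at hs h'
            exact hd u huB.2 hs t h' htu (h.trans hc)
          · have h5 := hg s hsx t h'
            rw [h] at h5
            rcases (hK1 s hKs hsx).2 with h6 | h6
            · exact h5 h6.symm
            · exact hg u hux s hs (by rw [h6, huB.2])
        · exact hKt (hK4 t s hKs h' (Or.inl h))
    · rw [if_neg ht, if_neg hu]
      exact hβ2 u t htu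
  let β3 : V → C := fun v => if v ∈ B then c else β2 v
  have hβ3 : PQ N β3 := G3 B (Finset.Subset.refl B)
  have G4 : ∀ A' ⊆ A, PQ N fun v => if v ∈ A' then c' else β3 v := by
    intro A' hA' u t htu
    show (if t ∈ A' then c' else β3 t) ≠ if u ∈ A' then c' else β3 u
    by_cases ht : t ∈ A' <;> by_cases hu : u ∈ A'
    · exact (hAind u t (hA' hu) (hA' ht) htu).elim
    · rw [if_pos ht, if_neg hu]
      show c' ≠ if u ∈ B then c else if u ∈ A then cs else σ u
      by_cases huB : u ∈ B
      · rw [if_pos huB]
        exact hcc.symm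
      · rw [if_neg huB]
        by_cases huA : u ∈ A
        · rw [if_pos huA]
          exact hccs
        · rw [if_neg huA]
          intro h
          exact huB ((hB u).2 ⟨hK4 u t ((hA t).1 (hA' ht)).1 htu (Or.inr h.symm), h.symm⟩)
    · rw [if_neg ht, if_pos hu]
      show (if t ∈ B then c else if t ∈ A then cs else σ t) ≠ c'
      by_cases htB : t ∈ B
      · rw [if_pos htB]
        exact hcc
      · rw [if_neg htB]
        by_cases htA : t ∈ A
        · rw [if_pos htA]
          exact hccs.symm
        · rw [if_neg htA]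
          intro h
          have hKt : ¬ K t := fun hk => htB ((hB t).2 ⟨hk, h⟩)
          have huA := (hA u).1 (hA' hu)
          by_cases hux : u = x
          · rw [hux] at htu
            exact hx t htu h
          · obtain ⟨⟨s, hs, hKs⟩, -⟩ := hK1 u huA.1 hux
            have hst : s ≠ t := fun h' => hKt (h' ▸ hKs)
            rcases hN.cl u s hs t htu hst with h' | h'
            · have h5 := hg u hux s hs
              rw [huA.2] at h5
              have hsx : s ≠ x := fun h6 => h5 (by rw [h6, hc])
              rcases (hK1 s hKs hsx).2 with h6 | h6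
              · exact h5 h6
              · exact hg s hsx t h' (by rw [h, h6])
            · exact hKt (hK4 t s hKs h' (Or.inr h))
    · rw [if_neg ht, if_neg hu]
      exact hβ3 u t htu
  let β4 : V → C := fun v => if v ∈ A then c' else β3 v
  have hβ4 : PQ N β4 := G4 A (Finset.Subset.refl A)
  -- the walk
  let β1 : V → C := Function.update σ x cs
  have e1 : ∀ A' : Finset V, (fun v => if v ∈ A' then cs else β1 v) =
      fun v => if v ∈ insert x A' then cs else σ v := by
    intro A'
    funext v
    by_cases hv : v ∈ A'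
    · rw [if_pos hv, if_pos (Finset.mem_insert_of_mem hv)]
    · rw [if_neg hv]
      by_cases hvx : v = x
      · rw [hvx, if_pos (Finset.mem_insert_self x A')]
        exact Function.update_self x cs σ
      · rw [if_neg (by rw [Finset.mem_insert, not_or]; exact ⟨hvx, hv⟩)]
        exact Function.update_of_ne hvx cs σ
  have p1 : P β1 := by
    apply hPQ
    have h3 := G2 {x} (by rw [Finset.singleton_subset_iff]; exact hxA) (Finset.mem_singleton_self x)
    have h4 : (fun v => if v ∈ ({x} : Finset V) then cs else σ v) = β1 := by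
      have h5 := e1 ∅
      simp only [Finset.notMem_empty, if_false, insert_empty_eq] at h5
      exact h5.symm
    rw [h4] at h3
    exact h3
  have w1 : Lk P 1 σ β1 := (h1 V C P P 1 1 σ σ σ).2.2.2.2.2 x cs hP p1
  have w2 : Lk P 1 β1 β2 := by
    have h3 := h2 V C P β1 A cs (fun A' hA' => by
      rw [e1]
      exact hPQ _ (G2 (insert x A') (Finset.insert_subset hxA hA')
        (Finset.mem_insert_self x A')))
    rw [e1, Finset.insert_eq_of_mem hxA] at h3
    exact h3
  have w3 : Lk P 1 β2 β3 := h2 V C P β2 B c fun B' hB' => hPQ _ (G3 B' hB')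
  have w4 : Lk P 1 β3 β4 := h2 V C P β3 A c' fun A' hA' => hPQ _ (G4 A' hA')
  have tr : ∀ (a b : ℕ) (α β γ : V → C), Lk P a α β → Lk P b β γ → Lk P (a + b) α γ :=
    fun a b α β γ => (h1 V C P P a b α β γ).2.2.1
  have w : Lk P 4 σ β4 := tr 3 1 _ _ _ (tr 2 1 _ _ _ (tr 1 1 _ _ _ w1 w2) w3) w4
  refine ⟨β4, hβ4, w, if_pos hxA, fun v => ?_, fun v hvx hv => ?_⟩
  · show (if v ∈ A then c' else if v ∈ B then c else if v ∈ A then cs else σ v) = σ v ∨ _ ∨ _
    by_cases hvA : v ∈ A
    · right
      right
      show (if v ∈ A then c' else if v ∈ B then c else if v ∈ A then cs else σ v) = c'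
      rw [if_pos hvA]
    · by_cases hvB : v ∈ B
      · right
        left
        show (if v ∈ A then c' else if v ∈ B then c else if v ∈ A then cs else σ v) = σ x
        rw [if_neg hvA, if_pos hvB, hc]
      · left
        rw [if_neg hvA, if_neg hvB, if_neg hvA]
  · have hKv : K v := by
      by_contra hn
      apply hv
      show (if v ∈ A then c' else if v ∈ B then c else if v ∈ A then cs else σ v) = σ v
      have hvA : v ∉ A := fun h => hn ((hA v).1 h).1
      have hvB : v ∉ B := fun h => hn ((hB v).1 h).1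
      rw [if_neg hvA, if_neg hvB, if_neg hvA]
    exact (hK2 v hKv).resolve_left hvx

end Pool.Agent.DTR
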