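import Pool.Agent.DTR.Defs

/-!
# MP_25e1c1_co: the module statements, with complete proofs in the doc-strings

The file of the module `DTR_X` is `Pool/Agent/DTR/X.lean`; it imports this file and proves the
theorem `dtr_x : S_X` (for the modules COR, HYP, MAN: under the hypotheses named in the doc-string,
as explicit arguments of the types `S_...`). All modules are independent of each other.
Elementary facts which a module needs (for instance about `Lk`) can be taken from `S_WLK`, `S_BAT`
as hypotheses where the doc-string says so.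
-/

set_option autoImplicit false

namespace Pool.Agent.DTR

open Finset

/-- **WLK.** Basic facts about `Lk`. All by induction on `Wk` (transitivity: induction on the second
walk, the counts add; reversal: a step `β → update β v c` is undone by
`update (update β v c) v (β v) = β`, for this prove first that walks can be extended at the front;
note that `Wk P α β m` implies `P α` and `P β`). The last item: a walk which recolours with counts
`m` has `∑ v, m v` steps. -/
def S_WLK : Prop :=
  ∀ (V C : Type) [DecidableEq V] (P Q : (V → C) → Prop) (a b : ℕ) (α β γ : V → C),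
    (P α → Lk P a α α) ∧
    (Lk P a α β → P α ∧ P β) ∧
    (Lk P a α β → Lk P b β γ → Lk P (a + b) α γ) ∧
    (Lk P a α β → Lk P a β α) ∧
    ((∀ δ, P δ → Q δ) → a ≤ b → Lk P a α β → Lk Q b α β) ∧
    (∀ (v : V) (c : C), P α → P (Function.update α v c) → Lk P 1 α (Function.update α v c))

/-- **BAT.** Recolour the vertices of `A` with the colour `e`, one at a time, in any order, if all
colourings which can occur have the property `P`. Proof: Finset induction; more precisely, prove by
induction on `A'` that for `A' ⊆ A` there is a walk to `fun v => if v ∈ A' then e else σ v` with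
`m v = 1` on `A'` and `m v = 0` elsewhere. -/
def S_BAT : Prop :=
  ∀ (V C : Type) [DecidableEq V] (P : (V → C) → Prop) (σ : V → C) (A : Finset V) (e : C),
    (∀ A' ⊆ A, P fun v => if v ∈ A' then e else σ v) →
      Lk P 1 σ fun v => if v ∈ A then e else σ v

/-- **HG.** Facts about home guards.
(1) `r u` = number of proper ancestors of `u` is an elimination rank: `rk` is clear from `irrefl` and
`trans`. Clique: let `y ≠ z` be home guards of `u`. By `chain` we may assume `anc y z`. Then `y` is a
home guard of `z`, as every `t` with `anc y t` and `In t z` satisfies `In t u` (`trans`).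
(2) If `y` is a home guard of `u` then `y ∈ X u` (take `t = u`).
(3) Let `E ∈ M` have at least two elements. First, some element of `E` has a proper ancestor in `E`:
take `a ≠ b` in `E`; if `anc a b` we are done; otherwise `E` meets the subtree of `a` (in `a`) and its
complement (in `b`), so by `Cmp` an element of `E` is in `X a`, and it is a proper ancestor of `a` by
`sub`. Now take `u ∈ E` with a proper ancestor `r ∈ E` such that the number of proper ancestors of
`u` is minimal. Then `r` has no proper ancestor in `E`, and `r` is the only proper ancestor of `u` in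
`E` (of two, one would be an ancestor of the other by `chain`, against minimality). `r` is a home
guard of `u`: let `anc r t` and `In t u`. `E` meets the subtree of `t` (in `u`) and its complement
(in `r`, by `irrefl` and `trans`), so there is `z ∈ E ∩ X t`; it is a proper ancestor of `t`, hence of
`u`, so `z = r`. As `u, r ∈ E ⊆ U`, a colouring in `PQ (W.N U)` gives them different colours. -/
def S_HG : Prop :=
  ∀ (V : Type) [Fintype V] [DecidableEq V] (W : Wld V),
    (∃ r : V → ℕ, ∀ U, Peo (W.N U) r) ∧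
    (∀ U u, W.N U u ⊆ W.X u) ∧
    (∀ (C : Type) (M : Set (Finset V)) (U : Finset V) (α : V → C), W.Cmp M → (∀ E ∈ M, E ⊆ U) →
      (∀ E ∈ M, 2 ≤ E.card) → PQ (W.N U) α → Pr M α)

/-- **MRG.** Let `y` be a home guard of `x`, `W' = W.mrg x y`, `q = qm x y` (so `q x = y` and
`q v = v` for `v ≠ x`; note `x ≠ y` by `irrefl`), `M'` the set of the `q`-images of the members of
`M`. Note: `X' u ⊇ X u \ {x}`, and `y ∈ X' u` if `x ∈ X u`.

(1) `card (X' u) ≤ card (X u)`: clear.

(2) `Cmp W' M'`: let `E ∈ M`, `E' = E.image q`, and let `E'` meet `S_u` (the subtree of `u`) and its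
complement. Case 1: `E` meets both. Then there is `z ∈ E ∩ X u`. If `z ≠ x` then `z = q z ∈ E'` and
`z ∈ X' u`. If `z = x` then `y = q x ∈ E'` and `y ∈ X' u`. Case 2: `E ⊆ S_u`. Then `E'` differs from
`E`, so `x ∈ E`, and the only element of `E'` which can be outside `S_u` is `y`; so `x ∈ S_u`,
`y ∉ S_u`. Both `u` and `y` are ancestors of `x` or equal to it; by `chain` and `trans`, `anc y u`. As `y` is
a home guard of `x`, `y ∈ X u`, so `y ∈ X' u`, and `y ∈ E'`. Case 3: `E` does not meet `S_u`. Then
`x ∈ E` and `y ∈ S_u`, so `x ∈ S_u` by `trans`, contradiction.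

(3) Let `(u, z) ≠ (x, y)` and `z` a home guard of `u` in `W`. Then one of `q u`, `q z` is a home guard
of the other in `W'`. If `z ≠ x` and `u ≠ x`: clear (`z ∈ X t` implies `z ∈ X' t`). If `u = x`: then
`z ≠ x`, `z ≠ y`, `q u = y`, `q z = z`, and `y`, `z` are both ancestors of `x`. If `anc z y`, then `z`
is a home guard of `y` in `W` (every `t` with `anc z t`, `In t y` has `In t x`), hence in `W'`. If
`anc y z`, then `y` is a home guard of `z` in `W` and in `W'` (in the same way). If `z = x`: then
`u ≠ x`, `q u = u`, `q z = y`, and `y` is a home guard of `u` in `W'`: let `anc y t` and `In t u`; `t`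
and `x` are comparable or equal (`chain`); if `In t x` then `y ∈ X t`; if `anc x t` then `x ∈ X t`, so
`y ∈ X' t`.

(4) `y` is a home guard of `x` in `W'` (`y ∈ X t` gives `y ∈ X' t`).

(5) Let `f ≠ x`, `f ≠ y` be adjacent to both `x` and `y` in `W`. If `f` is a home guard of `x` in `W`,
then also in `W'`, as `f ≠ x`. If `x` is a home guard of `f`, then `f` is a descendant of `x`, hence of
`y`, so `y` is a home guard of `f`. For `t` with `anc x t` and `In t f` we have `x ∈ X t` and
`y ∈ X t` (as `anc y t`), so `X' t = X t` contains `x`. So `x` is a home guard of `f` in `W'`. -/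
def S_MRG : Prop :=
  ∀ (V : Type) [Fintype V] [DecidableEq V] (W : Wld V) (x y : V) (h : W.anc y x) (_ : W.Hg x y),
    (∀ u, ((W.mrg x y h).X u).card ≤ (W.X u).card) ∧
    (∀ M : Set (Finset V), W.Cmp M → (W.mrg x y h).Cmp ((fun E => E.image (qm x y)) '' M)) ∧
    (∀ u z, (u, z) ≠ (x, y) → W.Hg u z →
      (W.mrg x y h).Hg (qm x y u) (qm x y z) ∨ (W.mrg x y h).Hg (qm x y z) (qm x y u)) ∧
    (W.mrg x y h).Hg x y ∧
    (∀ f, f ≠ x → f ≠ y → (W.Hg f x ∨ W.Hg x f) → (W.Hg f y ∨ W.Hg y f) →
      (W.mrg x y h).Hg f x ∨ (W.mrg x y h).Hg x f)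

/-- **LIF.** Recolourings lift: `M'` is the set of the `q`-images of the members of `M`, where
`q = qm x y`. Let `Wk (Pr M') α' β' m`; then `Wk (Pr M) (α' ∘ q) (β' ∘ q) (m ∘ q)`, by induction
(`refl`: `Pr M' α'` gives `Pr M (α' ∘ q)`, directly from the definitions). Step, `β' → update β' v c`:
if `v = x` then `update β' x c ∘ q = β' ∘ q` (as `x ≠ y`, `q` does not take the value `x`) and
`update m x _ ∘ q = m ∘ q`. If `v ≠ x`, `v ≠ y` then `update β' v c ∘ q = update (β' ∘ q) v c`. If
`v = y`: two steps, `β' ∘ q → update (β' ∘ q) y c → update (update (β' ∘ q) y c) x c`, which is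
`update β' y c ∘ q`. The middle colouring is in `Pr M`: let `E ∈ M`. If `c = β' y` the middle
colouring is `β' ∘ q`. Otherwise, if `x, y ∈ E` they have the colours `β' y` and `c`, different. If
`x ∉ E`, the middle colouring agrees on `E` with `update β' y c ∘ q`; if `y ∉ E`, it agrees on `E` with
`β' ∘ q`; both are in `Pr M` (by the first remark, as `β'` and `update β' y c` are in `Pr M'`; a walk
`Wk P α β m` implies `P β`). -/
def S_LIF : Prop :=
  ∀ (V C : Type) [DecidableEq V] (M : Set (Finset V)) (x y : V) (_ : x ≠ y) (N : ℕ)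
    (α β : V → C), Lk (Pr ((fun E => E.image (qm x y)) '' M)) N α β →
      Lk (Pr M) N (α ∘ qm x y) (β ∘ qm x y)

/-- **SWP.** (May use `S_WLK` and `S_BAT` as hypotheses: `theorem dtr_swp (h1 : S_WLK)
(h2 : S_BAT) : S_SWP`.) A Kempe change downwards from `x`. Write `c = σ x`. For vertices `u`, `t` with
`t ∈ N u` say that `t` is an up-neighbour of `u`. Let `K` be the smallest set which contains `x` and
every `u` with `σ u ∈ {c, c'}` which has an up-neighbour in `K` (an inductive predicate, or
`Relation.ReflTransGen`; or filter). Put `σ0 = σ` outside `K`, `σ0 = c'` on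
`A = {v ∈ K | σ v = c}`, `σ0 = c` on `B = {v ∈ K | σ v = c'}`. Every `v ∈ K`, `v ≠ x`, has
`r x < r v` (by `rk`), and `σ v ∈ {c, c'}` for `v ∈ K`. No up-neighbour `t` of `x` is in `K`.

Call `β` good if `PQ N β`. Step 1: `x` gets the colour `cs` (the spare colour): good, as only pairs
`(x, t)`, `t ∈ N x`, can be bad in `σ`, and `cs` is not used. So this step is
`σ → update σ x cs`, both have the property `P`. Step 2: the other elements of `A` get the colour
`cs`, by `S_BAT`. Two different elements of `A` are never adjacent: for `u ≠ x`, `t ∈ N u` the colours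
under `σ` are different, and no `t ∈ N x` is in `K`. So after recolouring `A'`,
`{x} ⊆ A' ⊆ A`, with `cs`, the colouring is good: two elements of `A'` are not adjacent, an element of
`A'` and one outside have different colours since `cs` is not used by `σ`, two elements outside are
as in `σ`, and `x` is not among them. Step 3: the elements of `B` get the colour `c`, by `S_BAT`. Let
`B' ⊆ B` be recoloured; the current colouring is good: elements of `B'` (all `≠ x`, because
`c ≠ c'`) are not adjacent to each other. Let `u ∈ B'`, `t ∈ N u`, `t ∉ B'`, and suppose `t` has the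
colour `c` now; then `σ t = c`, `t ∉ K` (elements of `A` have the colour `cs` now). `u ∈ K`,
`u ≠ x`, so `u` has an up-neighbour `s ∈ K`; `s ≠ t`. By the clique property `t ∈ N s` or `s ∈ N t`.
In the second case `t ∈ K`, contradiction. So `t ∈ N s`. If `s ≠ x`, then `σ s ≠ σ t = c`, so
`σ s = c' = σ u`, contradicting the goodness of `σ` at the pair `(u, s)`, `u ≠ x`. If `s = x`: `u` has
the colour `c'` in `σ` and `x, t ∈ N u`, `t ∈ N x`, `σ t = c = σ x`: excluded by hypothesis. Let
`t ∈ B'`, `t ∈ N u`, `u ∉ B'`, and suppose that `u` has the colour `c` now: `σ u = c`, `u ∉ K`; but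
`t ∈ K` is an up-neighbour of `u`, so `u ∈ K`, contradiction. Pairs outside `B'` are as after step 2.
Step 4: the elements of `A` get the colour `c'`, by `S_BAT`. Let `A' ⊆ A` be recoloured. Let
`u ∈ A'`, `t ∈ N u`, `t ∉ A'`, and suppose that `t` has the colour `c'` now: `σ t = c'`, `t ∉ K`. If
`u = x` this is excluded by hypothesis. If `u ≠ x`, `u` has an up-neighbour `s ∈ K`, `s ≠ t`; if
`s ∈ N t` then `t ∈ K`, contradiction; so `t ∈ N s`. Now `σ s ≠ σ u = c` (as `u ≠ x`), so
`σ s = c'`, `s ≠ x`, and `σ t = c' = σ s`, `t ∈ N s`: contradiction. Let `t ∈ A'`, `t ∈ N u`,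
`u ∉ A'`, and suppose that `u` has the colour `c'` now; `σ u = c'`, `u ∉ K`, but `t ∈ K`, so `u ∈ K`,
contradiction. The elements of `A` are not adjacent to each other. The result is `σ0` (it takes only
values of `σ`, `c` and `c'`). The four steps recolour every vertex at most 4 times. -/
def S_SWP : Prop :=
  ∀ (V C : Type) [Fintype V] [DecidableEq V] [DecidableEq C] (N : V → Finset V) (r : V → ℕ)
    (_ : Peo N r) (P : (V → C) → Prop) (σ : V → C) (x : V) (c' cs : C),
    P σ → (∀ β, PQ N β → P β) → (∀ v, σ v ≠ cs) → c' ≠ cs → σ x ≠ c' →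
    (∀ u, u ≠ x → ∀ t ∈ N u, σ t ≠ σ u) →
    (∀ t ∈ N x, σ t ≠ c') →
    (∀ u, σ u = c' → x ∈ N u → ∀ t ∈ N x, t ∈ N u → σ t ≠ σ x) →
    ∃ σ0 : V → C, PQ N σ0 ∧ Lk P 4 σ σ0 ∧ σ0 x = c' ∧
      (∀ v, σ0 v = σ v ∨ σ0 v = σ x ∨ σ0 v = c') ∧ ∀ v, v ≠ x → σ0 v ≠ σ v → r x < r v

/-- **GRD.** Greedy colouring with the colours `0, ..., w`: by induction on the rank (for instance,
induction on the size of a set `F` of vertices such that `u ∈ F`, `r t < r u` imply `t ∈ F`, extending
a colouring of `F` to a vertex of minimal rank outside `F`; or a well-founded recursion along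
`InvImage (· < ·) r`): the at most `w` vertices in `N u` do not use all `w + 1` colours. -/
def S_GRD : Prop :=
  ∀ (V : Type) [Fintype V] [DecidableEq V] (N : V → Finset V) (r : V → ℕ) (w k : ℕ),
    (∀ u, ∀ t ∈ N u, r t < r u) → (∀ u, (N u).card ≤ w) → w + 1 ≤ k →
      ∃ σ : V → Fin k, PQ N σ ∧ ∀ v, (σ v).val ≤ w

/-- **CPL.** (May use `S_WLK` and `S_BAT` as hypotheses: `theorem dtr_cpl (h1 : S_WLK)
(h2 : S_BAT) : S_CPL`.) Every proper colouring `α` of a chordal graph with cliques of size
`≤ w + 1` can be recoloured to one with the colours `0, ..., w`, every vertex being recoloured at most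
`n` times, without any spare colour.

Prove the following by induction on the number `j` of vertices outside `F`. Let `F` be a set of
vertices with `r t ≤ r u` for `t ∈ F`, `u ∉ F`. Let `s : V → Fin (w + 1)` (its values matter on `F`)
and `g : V → Fin (w + 1) → Fin k` satisfy (I1) `g u` is injective for `u ∉ F`; (I2) `g u (s t) = α t`
for `u ∉ F`, `t ∈ F`, `t ∈ N u`; (I3) `g t = g u` for `u ∉ F`, `t ∈ N u`, `t ∉ F`. Then there is
`s' : V → Fin (w + 1)`, equal to `s` on `F`, with `s' t ≠ s' u` for `u ∉ F`, `t ∈ N u`, and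
`Lk (PQ N) j α α'` where `α' u = α u` for `u ∈ F`, `α' u = g u (s' u)` for `u ∉ F`.

`j = 0`: trivial. Step: let `v ∉ F` have minimal rank; so `N v ⊆ F` by `rk`, and `F' = F ∪ {v}` has the
rank property. Choose a slot `i`: if there is an `i` with `g v i = α v`, that one; otherwise some `i`
not in `{s t | t ∈ N v}` (which has at most `w` elements). In both cases `i ≠ s t` for `t ∈ N v` (in the
first case, `g v (s t) = α t ≠ α v = g v i`). Let `D` be the set of the vertices `u` from which `v` can
be reached by up-neighbours: `u = u0, u1 ∈ N u0, ..., um = v`, `m ≥ 0`. Elements of `D` other than `v`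
have rank `> r v`, and are not in `F`. By (I3) `g u = g v` for `u ∈ D`. (D1) If `t ∈ D` and `t ∈ N u`
then `u ∈ D`. (D2) If `u ∈ D`, `u ≠ v`, `t ∈ N u`, `t ∉ F`, then `t ∈ D`: induction on the length of the
chain from `u` to `v`; `t = u1`: clear; otherwise by the clique property `u1 ∈ N t` (then
`t ∈ D`) or `t ∈ N u1`; in the latter case `u1 ≠ v` as `N v ⊆ F`, and induction gives `t ∈ D`. (D3) If
`u ∈ D`, `u ≠ v`, `t ∈ N u`, `t ∈ F`, then `t ∈ N v`: `t ≠ u1` since `u1 ∉ F`; `u1 ∈ N t` is impossible
since `r t ≤ r u1`; so `t ∈ N u1`, and induct. Put `s1 = s` except `s1 v = i`, and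
`g1 u = update (g v) i (α v)` for `u ∈ D`, `g1 u = g u` for `u ∉ D`. The invariants hold for `F'`, `s1`,
`g1`: (I1) either `g v i = α v`, and then `g1 u = g v`, or `α v` is not a value of `g v`. (I2) For
`u ∉ F'`, `t ∈ F'`, `t ∈ N u`: if `t = v` then `u ∈ D` and `g1 u i = α v`. If `t ∈ F` and `u ∉ D`:
clear. If `t ∈ F`, `u ∈ D`: `t ∈ N v` by (D3), so `s t ≠ i` and `g1 u (s t) = g v (s t) = g u (s t) = α t`.
(I3) For `u ∉ F'`, `t ∈ N u`, `t ∉ F'`: `u ∈ D ↔ t ∈ D` by (D1), (D2). Induction gives `s'`, with
`s' v = i` and `s' = s` on `F`. Properness of `s'` at `v`: `s' t = s t ≠ i` for `t ∈ N v`. By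
induction `Lk (PQ N) (j - 1) α α1` where `α1 u = α u` on `F'`, `α1 u = g1 u (s' u)` elsewhere. Let
`A = {u ∈ D | s' u = i}` (`v ∈ A`) and `e = g v i`. `α1 = α v` on `A`, and the goal colouring `α'` is
`e` on `A` and `α1` elsewhere (for `u ∈ D`, `s' u ≠ i`: `g1 u (s' u) = g v (s' u) = g u (s' u)`). By
`S_BAT` it remains to see that for `A' ⊆ A` the colouring with `A'` recoloured with `e` is in `PQ N`:
let `t ∈ N u`. Both in `A'`: impossible as `s' t ≠ s' u` (`u ∉ F` since `u ∈ D`). Both outside: `α1` is
in `PQ N`. `u ∈ A'`, `t ∉ A'`: if `t ∈ F`: `α1 t = α t = g u (s t) = g v (s t) ≠ g v i`, by (I2) and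
since `s t = s' t ≠ s' u = i`. If `t ∉ F`: `u ≠ v`, so `t ∈ D` by (D2), and `s' t ≠ i`, so `t ≠ v`, and
`α1 t = g1 t (s' t) = g v (s' t) ≠ g v i`. `t ∈ A'`, `u ∉ A'`: `u ∈ D` by (D1), `u ≠ v` (as
`N v ⊆ F`), `u ∉ F`, `s' u ≠ s' t = i`, so `α1 u = g v (s' u) ≠ g v i`.

The statement follows with `F = ∅`, `g u i = i` (as an element of `Fin k`), `τ u = s' u`. -/
def S_CPL : Prop :=
  ∀ (V : Type) [Fintype V] [DecidableEq V] (N : V → Finset V) (r : V → ℕ) (w k : ℕ)
    (α : V → Fin k), Peo N r → (∀ u, (N u).card ≤ w) → w + 1 ≤ k → PQ N α →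
      ∃ τ : V → Fin k, PQ N τ ∧ (∀ v, (τ v).val ≤ w) ∧ Lk (PQ N) (Fintype.card V) α τ

/-- **SWE.** (Uses `S_WLK` and `S_SWP` as hypotheses: `theorem dtr_swe (h1 : S_WLK)
(h2 : S_SWP) : S_SWE`.) Two proper colourings `σ`, `ρ` of a chordal graph which do not use the colour
`cs` are linked. Prove by induction on `j`: if `F` is a set of vertices with `r t ≤ r u` for `t ∈ F`,
`u ∉ F`, with `j` vertices outside `F`, and `σ = ρ` on `F`, then `Lk (PQ N) (4 * j) σ ρ`. `j = 0`: clear.
Step: let `x ∉ F` have minimal rank. If `σ x = ρ x` use `F ∪ {x}`. Otherwise apply `S_SWP` with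
`P = PQ N`, `c' = ρ x`: `N x ⊆ F`, so `σ t = ρ t ≠ ρ x` for `t ∈ N x`, and `σ t ≠ σ x` for `t ∈ N x`,
since `σ` is proper. The result `σ0` has `σ0 x = ρ x` and `σ0 = σ = ρ` on `F`, because vertices other
than `x` which change have rank `> r x`; it does not use `cs`. Continue with `F ∪ {x}`. -/
def S_SWE : Prop :=
  ∀ (V C : Type) [Fintype V] [DecidableEq V] [DecidableEq C] (N : V → Finset V) (r : V → ℕ)
    (_ : Peo N r) (σ ρ : V → C) (cs : C), PQ N σ → PQ N ρ → (∀ v, σ v ≠ cs) → (∀ v, ρ v ≠ cs) →
      Lk (PQ N) (4 * Fintype.card V) σ ρ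

/-- **COR.** (Hypotheses: `S_WLK`, `S_HG`, `S_MRG`, `S_LIF`, `S_SWP`, `S_GRD`, `S_CPL`, `S_SWE`, in this
order: `theorem dtr_cor (h1 : S_WLK) ... (h8 : S_SWE) : S_COR`.)
Induction on `card U`, generalizing `W`, `M`, `α`. Members of `M` have at least two elements, as
`Pr M α`.

Case A: there are `x, y ∈ U` with `W.Hg x y` and `α x = α y`. Put `q = qm x y`, `W' = W.mrg x y _`, `M'` =
the `q`-images of the members of `M`, `U' = U.erase x`. The members of `M'` are contained in `U'`
(`q` never takes the value `x`), `Cmp W' M'` and the cardinalities by `S_MRG`, and `Pr M' α`, since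
`α ∘ q = α`. Induction: `σ'` with values `≤ w`, `PQ (W'.N univ) σ'`,
`Lk (Pr M') (5 n + 4 (card U - 1)) α σ'`. By `S_LIF`, `Lk (Pr M) (5 n + 4 (card U - 1)) α σ` with
`σ = σ' ∘ q`. Now apply `S_SWP` with `N = W.N univ`, `P = Pr M`, `x`, `σ`, `c' = σ' x`, `cs` = the colour
`w + 1`. Hypotheses: `Pr M σ` (end of the walk), `PQ N β → Pr M β` (`S_HG`, (3), with
`U = univ`), `σ x = σ' y ≠ σ' x` by `S_MRG` (4). For `u ≠ x`, `t` a home guard of `u`: the pair is not
`(x, y)`, so by `S_MRG` (3) `σ' (q t) ≠ σ' (q u)`. For `t` a home guard of `x`: if `t = y`,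
`σ t = σ' y ≠ σ' x`. If `t ≠ y` (and `t ≠ x`), `t` and `y` are adjacent in `W` by the clique property
(`Peo`), and `t` is adjacent to `x`, so by `S_MRG` (5) `σ t = σ' t ≠ σ' x`. Let `σ u = c'`, `x ∈ N u`,
`t ∈ N x`, `t ∈ N u`, and suppose `σ t = σ x`. If `t ≠ y` then `t`, `y` are adjacent home guards of `x`,
and by `S_MRG` (3) (the pair of `t` and `y`, which does not contain `x`) `σ t ≠ σ y = σ x`,
contradiction. So `t = y`, and `u` is adjacent to `x` and `y`, `u ≠ x, y`, so
`σ u = σ' u ≠ σ' x = c'` by `S_MRG` (5), contradiction. The result `σ0` of `S_SWP` is the required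
colouring: its values are values of `σ` or `c'`, so `≤ w`. Total `5 n + 4 (card U - 1) + 4`.

Case B: otherwise `α` is in `PQ (W.N U)`. By `S_CPL` (for `N = W.N U`; `card (N u) ≤ w` by
`S_HG` (2)) there is `τ` with values `≤ w`, `Lk (PQ (W.N U)) n α τ`. By `S_GRD` for `W.N univ` there is
`σ` with values `≤ w`, `PQ (W.N univ) σ`; so `PQ (W.N U) σ` (`W.N U u ⊆ W.N univ u`). By `S_SWE` (spare
colour `w + 1`) `Lk (PQ (W.N U)) (4 n) τ σ`. As `PQ (W.N U)` implies `Pr M` by `S_HG` (3), done. -/
def S_COR : Prop :=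
  ∀ (V : Type) [Fintype V] [DecidableEq V] (w k : ℕ), w + 2 ≤ k → ∀ (W : Wld V)
    (_ : ∀ v, (W.X v).card ≤ w) (M : Set (Finset V)) (U : Finset V), W.Cmp M →
    (∀ E ∈ M, E ⊆ U) → ∀ α : V → Fin k, Pr M α →
      ∃ σ : V → Fin k, (∀ v, (σ v).val ≤ w) ∧ PQ (W.N univ) σ ∧
        Lk (Pr M) (5 * Fintype.card V + 4 * U.card) α σ

/-- **HYP.** (Hypotheses `S_WLK`, `S_HG`, `S_SWE`, `S_COR`: `theorem dtr_hyp (h1 : S_WLK) (h2 : S_HG)
(h3 : S_SWE) (h4 : S_COR) : S_HYP`.) Apply `S_COR` with `U = univ` to `α` and to `β`; the resulting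
`σ`, `ρ` are linked by `S_SWE` (spare colour `w + 1`), with `PQ (W.N univ)` implying `Pr M` by `S_HG`
(3) (members have at least two elements since `Pr M α`). Total `9 n + 4 n + 9 n = 22 n`. -/
def S_HYP : Prop :=
  ∀ (V : Type) [Fintype V] [DecidableEq V] (w k : ℕ), w + 2 ≤ k → ∀ (W : Wld V)
    (_ : ∀ v, (W.X v).card ≤ w) (M : Set (Finset V)), W.Cmp M → ∀ α β : V → Fin k,
      Pr M α → Pr M β → Lk (Pr M) (22 * Fintype.card V) α β

/-- **DIC.** A colouring is a dicolouring iff it is not constant on any member of `MD D`. If `α` is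
constant `= i` on `E ∈ MD D`, take `v ∈ E`: `TransGen (Rs D (· ∈ E)) v v` gives
`TransGen (Rs D (α · = i)) v v` (`TransGen.mono`). Conversely, if
`TransGen (Rs D (α · = i)) v v`, write `R` for this relation and let `E` be the (filter) set of the
vertices `a` with `TransGen R v a` and `TransGen R a v`; then `v ∈ E`, all elements of `E` have the
colour `i`, and for `a, b ∈ E` there is a chain `TransGen R a b` (through `v`), all of whose members
`c` have `TransGen R v c` and `TransGen R c v` (induction on the chain, keeping the information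
`TransGen R v c` and `TransGen R c b`), so it is a chain for `Rs D (· ∈ E)`. -/
def S_DIC : Prop :=
  ∀ (V C : Type) [Fintype V] [DecidableEq V] (D : V → V → Prop) (α : V → C),
    Dic D α ↔ Pr (MD D) α

/-- **DIS.** A walk `Wk (Dic D) α β m` gives a path of length at most `∑ v, m v` in `dG D k` (induction
on `Wk`: a step `β → update β v c` is an edge if `c ≠ β v`, and does nothing if `c = β v`; use
`Walk` of the simple graph, `SimpleGraph.dist_le`, or directly the existence of a walk `p` with
`p.length ≤ ∑ v, m v`). -/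
def S_DIS : Prop :=
  ∀ (V : Type) [Fintype V] [DecidableEq V] (D : V → V → Prop) (k N : ℕ)
    (α β : {α : V → Fin k // Dic D α}), Lk (Dic D) N α.1 β.1 →
      (dG D k).Reachable α β ∧ (dG D k).dist α β ≤ N * Fintype.card V

/-- **ARB.** Vertex worlds of arboreal decompositions whose guards lie above. Choose a linear order
of `V` (for instance an injective map `o : V → ℕ`, from `Fintype.equivFin`). Put `anc u v` iff
`Anc (h u) (h v)`, or `h u = h v` and `o u < o v`. `Anc` is transitive and irreflexive, and two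
ancestors-or-equal of the same node are comparable: if `par^[i] t = s` and `par^[j] t = s'` with
`i ≤ j` then `par^[j - i] s = s'`. (Antisymmetry: if `par^[i] s = s'`, `par^[j] s' = s`, then
`par^[i + j] s = s`, so all iterates of `s` are repeated periodically; by `reach` some iterate is
`root`, which is fixed by `par`, so if `i + j > 0` then `s = root`, and `s' = root` also; if
`i + j = 0` then `s = s'`.) Put `X' v = (if h v = root then ∅ else X (h v)) ∪ {u | h u = h v, o u < o v}`. It
consists of proper ancestors of `v` by the hypothesis. `v ∉ X' v` and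
`X' v ∪ {v} ⊆ {u | h u = h v} ∪ (the guard of h v)`, so `card (X' v) ≤ w`.

`Cmp`: let `E ∈ MD D`, `v ∈ V`, let `E` meet `S = {u | In v u}` and its complement, and suppose that
`E` is disjoint from `X' v`. Let `s = h v` and `T = {u | ∃ i, par^[i] (h u) = s}`, so `S ⊆ T`. If
`s = root` then `T` is everything (`reach`). If `s ≠ root`: `E` is disjoint from `X s` and meets `T`;
if it also met the complement of `T`, say `a ∈ E ∩ T`, `c ∈ E \ T`, then there would be chains from
`a` to `c` and from `c` to `a` inside `E`, so inside `D - X s`, contradicting `normal` (with `b = a`). So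
`E ⊆ T`. Let `u ∈ E`, `u ∉ S`. Then `h u = s` (if `h u ≠ s`, then `Anc s (h u)` and so `In v u`) and not
`o v ≤ o u` (else `u = v` or `anc v u`), so `o u < o v` and `u ∈ X' v`, contradiction. -/
def S_ARB : Prop :=
  ∀ (V T : Type) [Fintype V] [DecidableEq V] [DecidableEq T] (D : V → V → Prop) (A : Arb D T)
    (w : ℕ),
    (∀ s, s ≠ A.root → ∀ x ∈ A.X s, A.Anc (A.h x) s) →
    (∀ s, ((univ.filter fun v => A.h v = s) ∪ (if s = A.root then ∅ else A.X s)).card ≤ w + 1) →
    ∃ W : Wld V, (∀ v, (W.X v).card ≤ w) ∧ W.Cmp (MD D)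

/-- **MAN.** (Hypotheses `S_HYP`, `S_DIC`, `S_DIS`, `S_ARB`, `S_HG`, `S_GRD`: `theorem dtr_man
(h1 : S_HYP) (h2 : S_DIC) (h3 : S_DIS) (h4 : S_ARB) (h5 : S_HG) (h6 : S_GRD) : S_MAN`.) Direct: the
world of `S_ARB`, then `S_HYP` with `M = MD D`; `Dic D` and `Pr (MD D)` are the same by `S_DIC`
(`funext`, `propext`). Nonempty: the colouring of `S_GRD` for `W.N univ` is in `Pr (MD D)` by `S_HG` (3);
for this the members of `MD D` need two elements: if `E = {a}` then
`TransGen (Rs D (· ∈ E)) a a` gives `D a a` (all vertices of the chain are `a`), excluded. -/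
def S_MAN : Prop :=
  ∀ (V T : Type) [Fintype V] [DecidableEq V] [DecidableEq T] (D : V → V → Prop)
    (_ : ∀ v, ¬ D v v) (A : Arb D T) (w k : ℕ), w + 2 ≤ k →
    (∀ s, s ≠ A.root → ∀ x ∈ A.X s, A.Anc (A.h x) s) →
    (∀ s, ((univ.filter fun v => A.h v = s) ∪ (if s = A.root then ∅ else A.X s)).card ≤ w + 1) →
    (dG D k).Connected ∧ ∀ α β, (dG D k).dist α β ≤ 22 * Fintype.card V ^ 2

end Pool.Agent.DTR
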