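import Pool.Agent.DTR.Defs2

/-!
# MP_25e1c1_co, part 2: the module statements, with complete proofs in the doc-strings

`k ≥ w + 2` implies that the `k`-dicolouring graph is connected with diameter at most
`2 (w + 1) n (n + 1)`, for ALL digraphs with an arboreal decomposition of width `w`.
The file of the module `DTR2_X` is `Pool/Agent/DTR/X.lean`; it imports this file and proves
`dtr_x : S_X` (possibly under the hypotheses named in the doc-string).
-/

set_option autoImplicit false

namespace Pool.Agent.DTR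

open Finset

/-- **ELB.** (`theorem dtr_elb (h1 : S_WLK) (h2 : S_BAT) : S_ELB`.) Elimination of the colour `h` from a
set `Q ⊆ U` which is closed under descendants in `U`. All steps stay in `St M U m`; they change
only vertices of `Q`, to colours `< m`.

Strong induction on `card Q` (generalizing `σ`, `h`). `Q = ∅`: nothing to do. Otherwise let `c ∈ Q`
have no proper ancestor in `Q` (take an element of `Q` with the least number of ancestors in
`Q`, or a minimal element for the well-founded relation `anc` on a finite type). Let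
`S = {v ∈ U | In c v}`; `S ⊆ Q`. Let `Q1 = S.erase c`, `Q2 = Q \ S`. Both are closed under descendants in
`U`: for `Q1` by `trans` (and `irrefl`: a descendant of an element of `Q1` is not `c`); for `Q2`: let
`v ∈ Q2`, `u ∈ U`, `anc v u`; then `u ∈ Q`; if `u ∈ S`, then either `u = c` and `v` is a proper ancestor of
`c` in `Q`, contradiction; or `anc c u`, and by `chain` `v = c` (no, `c ∈ S`), or `anc v c`
(contradiction as before), or `anc c v` (then `v ∈ S`, contradiction).
(1) Induction for `Q2` and `h`: `σ1`, equal to `σ` off `Q2`, without the colour `h` on `Q2`.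
(2) Choose a colour `g` with `g < m`, `g ≠ σ1 c`, `g ≠ σ1 z` for all `z ∈ X c ∩ U`: there are `m` colours
`< m` (as `m ≤ k`) and only `card (X c ∩ U) + 1 < m` forbidden ones.
(3) Induction for `Q1` and `g` (starting from `σ1`): `σ2`, equal to `σ1` off `Q1`, without the colour
`g` on `Q1`. So `σ2` does not take the value `g` on `S` and on `X c ∩ U` (these vertices are not
in `S` by `out`, so unchanged).
(4) Recolour `A = {v ∈ S | σ2 v = h}` with `g`, one vertex at a time (`S_BAT`), giving `σ3`. For
`A' ⊆ A` the colouring `β` (with `A'` recoloured) is in `St M U m`: the colours of `U` are `< m`, off `U`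
nothing changed. `Pr M β`: let `E ∈ M` and suppose that `β` is constant on `E`. If `E` does not meet `A'`
then `σ2` is constant on `E`, contradiction. So `β = g` on `E`, `E ⊆ U` (other vertices have colours
`≥ m > g`), and `E` meets `S`. If `E` is not contained in the subtree of `c`, there is by `Cmp` a
`z ∈ E ∩ X c`; `z ∈ U`, `z ∉ S`, so `β z = σ2 z ≠ g`, contradiction. Otherwise `E ⊆ S`; no vertex
of `S` has the colour `g` under `σ2`, so `E ⊆ A'`, so `σ2 = h` on `E`, constant, contradiction.
`σ3` is equal to `σ` off `Q` and has no colour `h` on `Q`: on `Q2` since `σ3 = σ1` there; on `S`: if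
`g ≠ h` clear from (4), if `g = h` then `σ2` has no colour `g = h` on `S` and `A = ∅`.
Total: `card Q2 + card Q1 + 1 = card Q` recolourings per vertex. -/
def S_ELB : Prop :=
  ∀ (V : Type) [Fintype V] [DecidableEq V] (k : ℕ) (G : GW V) (M : Set (Finset V)), G.Cmp M →
    ∀ (U : Finset V) (m : ℕ), m ≤ k → (∀ u ∈ U, (G.X u ∩ U).card + 1 < m) →
    ∀ Q ⊆ U, (∀ v ∈ Q, ∀ u ∈ U, G.anc v u → u ∈ Q) →
    ∀ (h : Fin k) (σ : V → Fin k), St M U m σ →
      ∃ σ' : V → Fin k, (∀ v, v ∉ Q → σ' v = σ v) ∧ (∀ v ∈ Q, σ' v ≠ h) ∧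
        Lk (St M U m) Q.card σ σ'

/-- **MIS.** Let `r : V → ℕ` be injective with `r u < r v` if `anc u v` (for instance
`r v = (number of ancestors of v) * card V + index of v`, with the index from
`Fintype.equivFin`). Greedy choice: by induction on `n` there is `J ⊆ {u ∈ U | r u < n}` such that for
`u ∈ U` with `r u < n`: `u ∈ J` iff no `z ∈ J` with `r z < r u` is in `X u` (at most one vertex has the
rank `n`). With `n` large this gives `J ⊆ U` with `u ∈ J` iff no `z ∈ J ∩ X u` has `r z < r u`, for
`u ∈ U`. The first claim is clear. Let `E ∈ M`, `E ⊆ J`; `E` has two elements; let `u ∈ E` have maximal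
rank. `E` meets the subtree of `u` (in `u`) and its complement (in any other element `v ∈ E`, as
`r v < r u` excludes `anc u v`), so there is `z ∈ E ∩ X u`; `z ≠ u` by `out`, `r z < r u`, `z ∈ J`,
`u ∈ J`: contradiction. -/
def S_MIS : Prop :=
  ∀ (V : Type) [Fintype V] [DecidableEq V] (G : GW V) (M : Set (Finset V)), G.Cmp M →
    (∀ E ∈ M, 2 ≤ E.card) → ∀ U : Finset V,
      ∃ J ⊆ U, (∀ u ∈ U, u ∉ J → ∃ z ∈ J, z ∈ G.X u) ∧ ∀ E ∈ M, ¬ E ⊆ J

/-- **LEV.** (`theorem dtr_lev (h1 : S_WLK) (h2 : S_BAT) (h3 : S_ELB) (h4 : S_MIS) : S_LEV`.)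
Induction on `q` (generalizing `U`, `m`). `q = 0`: `U = ∅`, any `τ`. Step `q + 1`: let `J ⊆ U` be from
`S_MIS`, `U' = U \ J`, `m' = m - 1`. For `u ∈ U'` some `z ∈ J` is in `X u`, so
`card (X u ∩ U') + 1 ≤ card (X u ∩ U) ≤ q`, and `q + 1 ≤ m'`. Let `τ'` be from the induction for `U'`,
`m'`, and `τ v =` the colour `m - 1` for `v ∈ J`, `τ v = τ' v` otherwise. Let `σ` be in `St M U m`.
`S_ELB` with `Q = U`, `h =` the colour `m - 1` gives `σ1` in `St M U m`, equal to `σ` off `U`, without the
colour `m - 1` on `U`, so with colours `< m - 1` on `U`; `n` recolourings per vertex suffice. By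
`S_BAT` recolour `J` with `m - 1`: for `J' ⊆ J` the colouring is in `Pr M`: if `E ∈ M` is
monochromatic and meets `J'`, then its colour is `m - 1`, so `E ⊆ J'` (vertices of `U \ J'` have
colours `< m - 1`, vertices off `U` colours `≥ m`), contradiction to `S_MIS`. The result `σ2` is in
`St M U' m'`, and the induction applies; the end is `τ` on `U`, `σ` off `U`. Total per vertex
`n + 1 + q (n + 1)`. (`St M U m` implies `Pr M`, use the monotonicity in `S_WLK`.) -/
def S_LEV : Prop :=
  ∀ (V : Type) [Fintype V] [DecidableEq V] (k : ℕ) (G : GW V) (M : Set (Finset V)), G.Cmp M →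
    (∀ E ∈ M, 2 ≤ E.card) → ∀ (q : ℕ) (U : Finset V) (m : ℕ), m ≤ k → q + 1 ≤ m →
    (∀ u ∈ U, (G.X u ∩ U).card + 1 ≤ q) →
      ∃ τ : V → Fin k, ∀ σ : V → Fin k, St M U m σ →
        Lk (Pr M) (q * (Fintype.card V + 1)) σ fun v => if v ∈ U then τ v else σ v

/-- **EXG.** (`theorem dtr_exg (h1 : S_MIS) : S_EXG`.) Existence of a colouring in `Pr M` with `w + 1`
colours. By induction on `q` (generalizing `U`): if `card (X u ∩ U) + 1 ≤ q ≤ k` for all `u ∈ U`, and
`0 < k`, then there is `τ : V → Fin k` with values `< q` on `U` and such that no `E ∈ M` with `E ⊆ U` is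
monochromatic. Step: `J` from `S_MIS`, colour `q` on `J`, the induction for `U \ J`; a monochromatic
`E ⊆ U` which meets `J` is contained in `J`. -/
def S_EXG : Prop :=
  ∀ (V : Type) [Fintype V] [DecidableEq V] (k : ℕ) (G : GW V) (M : Set (Finset V)), G.Cmp M →
    (∀ E ∈ M, 2 ≤ E.card) → ∀ w : ℕ, (∀ v, (G.X v).card ≤ w) → w + 1 ≤ k →
      ∃ τ : V → Fin k, Pr M τ

/-- **HYG.** (`theorem dtr_hyg (h1 : S_WLK) (h2 : S_LEV) : S_HYG`.) Apply `S_LEV` with `U = univ`,
`m = k`, `q = w + 1` to `α` and to `β`: both are linked to the same `τ`. (Members of `M` have at least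
two elements because `Pr M α`.) -/
def S_HYG : Prop :=
  ∀ (V : Type) [Fintype V] [DecidableEq V] (w k : ℕ), w + 2 ≤ k → ∀ (G : GW V),
    (∀ v, (G.X v).card ≤ w) → ∀ M : Set (Finset V), G.Cmp M → ∀ α β : V → Fin k,
      Pr M α → Pr M β → Lk (Pr M) (2 * ((w + 1) * (Fintype.card V + 1))) α β

/-- **ARG.** As the module `ARB` (`Pool/Agent/DTR/ARB.lean`, please reuse its proof), but the guards are
arbitrary: `X' v = (if h v = root then ∅ else X (h v)) ∪ {u | h u = h v, o u < o v}`. The elements of `X' v`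
are not in the subtree of `v`: for `x ∈ X (h v)`, `h v ≠ root`, by the first part of `normal` there is
no `i` with `par^[i] (h x) = h v`; for `h u = h v`, `o u < o v`: `u ≠ v` and neither
`Anc (h v) (h u)` nor `o v < o u`. -/
def S_ARG : Prop :=
  ∀ (V T : Type) [Fintype V] [DecidableEq V] [DecidableEq T] (D : V → V → Prop) (A : Arb D T)
    (w : ℕ),
    (∀ s, ((univ.filter fun v => A.h v = s) ∪ (if s = A.root then ∅ else A.X s)).card ≤ w + 1) →
    ∃ G : GW V, (∀ v, (G.X v).card ≤ w) ∧ G.Cmp (MD D)

/-- **MAG.** (`theorem dtr_mag (h1 : S_HYG) (h2 : S_DIC) (h3 : S_DIS) (h4 : S_ARG) (h5 : S_EXG) :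
S_MAG`; compare `Pool/Agent/DTR/MAN.lean`.) The world of `S_ARG`, then `S_HYG` with `M = MD D`;
`Dic D` and `Pr (MD D)` are the same by `S_DIC`. Nonempty by `S_EXG` (members of `MD D` have at least two
elements since there are no loops, see `MANX.two_le` in `MAN.lean`). -/
def S_MAG : Prop :=
  ∀ (V T : Type) [Fintype V] [DecidableEq V] [DecidableEq T] (D : V → V → Prop)
    (_ : ∀ v, ¬ D v v) (A : Arb D T) (w k : ℕ), w + 2 ≤ k →
    (∀ s, ((univ.filter fun v => A.h v = s) ∪ (if s = A.root then ∅ else A.X s)).card ≤ w + 1) →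
    (dG D k).Connected ∧
      ∀ α β, (dG D k).dist α β ≤ 2 * (w + 1) * (Fintype.card V + 1) * Fintype.card V

end Pool.Agent.DTR
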