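import Pool.Agent.DTR.Stmts

/-!
# Module WLK: basic facts about recolouring walks
-/

set_option autoImplicit false

namespace Pool.Agent.DTR

open Finset

namespace WLKX

variable {V C : Type} [DecidableEq V] {P Q : (V → C) → Prop}

theorem left {α β : V → C} {m : V → ℕ} (h : Wk P α β m) : P α := by
  induction h with
  | refl h => exact h
  | step v c h h' ih => exact ih

theorem right {α β : V → C} {m : V → ℕ} (h : Wk P α β m) : P β := by
  cases h with
  | refl h => exact h
  | step v c h h' => exact h'

theorem cast {α β : V → C} {m m' : V → ℕ} (h : Wk P α β m) (e : m = m') : Wk P α β m' := e ▸ h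

theorem trans {α β γ : V → C} {m m' : V → ℕ} (h : Wk P α β m) (h2 : Wk P β γ m') :
    Wk P α γ (fun v => m v + m' v) := by
  induction h2 with
  | refl h' => exact cast h (by funext v; simp)
  | step v c h3 h' ih =>
    refine cast (Wk.step v c ih h') ?_
    funext u
    by_cases hu : u = v
    · subst hu
      simp only [Function.update_self]
      omega
    · simp only [Function.update_of_ne hu]

theorem single {α : V → C} (v : V) (c : C) (h : P α) (h' : P (Function.update α v c)) :
    Wk P α (Function.update α v c) (Function.update (fun _ => 0) v (0 + 1)) :=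
  Wk.step v c (Wk.refl α h) h'

theorem back {β : V → C} (v : V) (c : C) (h : P β) (h' : P (Function.update β v c)) :
    Wk P (Function.update β v c) β (Function.update (fun _ => 0) v (0 + 1)) := by
  have e : Function.update (Function.update β v c) v (β v) = β := by
    rw [Function.update_idem, Function.update_eq_self]
  have h1 := single (α := Function.update β v c) v (β v) h' (by rw [e]; exact h)
  rw [e] at h1
  exact h1

theorem rev {α β : V → C} {m : V → ℕ} (h : Wk P α β m) : Wk P β α m := by
  induction h with
  | refl h => exact Wk.refl _ h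
  | step v c h h' ih =>
    refine cast (trans (back v c (right h) h') ih) ?_
    funext u
    by_cases hu : u = v
    · subst hu
      simp only [Function.update_self]
      omega
    · simp only [Function.update_of_ne hu]
      omega

theorem mono (hPQ : ∀ δ, P δ → Q δ) {α β : V → C} {m : V → ℕ} (h : Wk P α β m) : Wk Q α β m := by
  induction h with
  | refl h => exact Wk.refl _ (hPQ _ h)
  | step v c h h' ih => exact Wk.step v c ih (hPQ _ h')

end WLKX

open WLKX in
theorem dtr_wlk : S_WLK := by
  intro V C _ P Q a b α β γ
  refine ⟨?_, ?_, ?_, ?_, ?_, ?_⟩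
  · exact fun h => ⟨_, Wk.refl α h, fun _ => Nat.zero_le _⟩
  · rintro ⟨m, h, -⟩
    exact ⟨left h, right h⟩
  · rintro ⟨m, h, hm⟩ ⟨m', h', hm'⟩
    exact ⟨_, trans h h', fun v => Nat.add_le_add (hm v) (hm' v)⟩
  · rintro ⟨m, h, hm⟩
    exact ⟨m, rev h, hm⟩
  · rintro hPQ hab ⟨m, h, hm⟩
    exact ⟨m, mono hPQ h, fun v => (hm v).trans hab⟩
  · intro v c h h'
    refine ⟨_, single v c h h', fun u => ?_⟩
    by_cases hu : u = v
    · subst hu
      rw [Function.update_self]
    · rw [Function.update_of_ne hu]
      exact Nat.zero_le _

end Pool.Agent.DTR
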